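import Pool.Agent.TH829.Kim.Defs

/-!
# Noncommutative motives modulo homological equivalence: definitions
-/

open CategoryTheory AlgebraicGeometry

universe u v w

namespace Pool.Agent.Y121.NK

open Pool.Agent.H914 Pool.Agent.H914.VarClass Pool.Agent.H914.VarClass.Obj Pool.Agent.W492.BB
  Pool.Agent.W550.Corr Pool.Agent.TH133

variable {k : Type u} [Field k] {𝒱 : VarClass k} {C : TheoryData.{u, v, 0} 𝒱 ℚ} {K : Type w}
  [Field K]

/-- The cohomology algebras are graded-commutative. -/
def GradedComm (H : WeilTheoryData.{u, v, w} C K) : Prop :=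
  ∀ (X : 𝒱.Obj) (i j : ℤ) (a b : H.A X), H.Deg i a → H.Deg j b →
    H.mul a b = (-1 : K) ^ (i * j) • H.mul b a

/-- Two classes are homologically equivalent. -/
def HomEq (H : WeilTheoryData.{u, v, w} C K) {Z : 𝒱.Obj} (a b : C.A Z) : Prop := H.cl a = H.cl b

/-- The correspondence `π` (of any degrees) acts on the cohomology of `X` as the composition of the
correspondence `e` with the projection onto the even part. -/
def ActsAsEvenPart (H : WeilTheoryData.{u, v, w} C K) {X : 𝒱.Obj} (e π : C.A (X.prod X)) : Prop :=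
  (∀ (i : ℤ) (a : H.A X), Even i → H.Deg i a → H.act (H.cl π) a = H.act (H.cl e) a) ∧
    ∀ (i : ℤ) (a : H.A X), Odd i → H.Deg i a → H.act (H.cl π) a = 0

/-- The sign conjecture for the noncommutative motive `(X, e)`: the projection onto the even part of
its cohomology `e H(X)` is induced by an element of `K_0(X × X)_ℚ = CH^*(X × X)_ℚ`. -/
def SignNC (H : WeilTheoryData.{u, v, w} C K) {X : 𝒱.Obj} (e : C.A (X.prod X)) : Prop :=
  ∃ π : C.A (X.prod X), ActsAsEvenPart H e π

/-- The sign conjecture for the Chow motive `(X, e)`: the projection onto the even part of its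
cohomology `e H(X)` is induced by an element of `CH^(dim X)(X × X)_ℚ`. -/
def SignChow (H : WeilTheoryData.{u, v, w} C K) {X : 𝒱.Obj} (e : C.A (X.prod X)) : Prop :=
  ∃ π : C.A (X.prod X), C.Deg X.dim π ∧ ActsAsEvenPart H e π

end Pool.Agent.Y121.NK
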