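import Pool.Agent.Y121.NK.Main
import Pool.Agent.Y121.NK.HomDefs
import Mathlib.LinearAlgebra.Trace

/-!
# The trace formula for self-correspondences of arbitrary degrees
-/

open CategoryTheory AlgebraicGeometry

universe u v w

namespace Pool.Agent.Y121.NK

open Pool.Agent.H914 Pool.Agent.H914.VarClass Pool.Agent.H914.VarClass.Obj Pool.Agent.W492.BB
  Pool.Agent.W550.Corr Pool.Agent.TH133 Pool.Agent.TH829.Prime Pool.Agent.TH829.Kim

set_option linter.unusedSectionVars false

variable {k : Type u} [Field k] {𝒱 : VarClass k}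

lemma neg_one_zpow_mod {K : Type*} [Field K] {i j : ℤ} (h : Even (i - j)) :
    (-1 : K) ^ i = (-1 : K) ^ j := by
  have h1 : (-1 : K) ^ (i - j) = 1 := Even.neg_one_zpow h
  have h2 : (-1 : K) ^ ((i - j) + j) = (-1 : K) ^ j := by
    rw [zpow_add₀ (by norm_num : (-1 : K) ≠ 0), h1, one_mul]
  rwa [sub_add_cancel] at h2

section weil

variable {C : TheoryData.{u, v, 0} 𝒱 ℚ} [hC : IsChowProj C] {K : Type w} [Field K]
  (H : WeilTheoryData.{u, v, w} C K) [hH : IsWeilProj H] {X Y Z W : 𝒱.Obj}

include hC hH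

lemma nontrivial_A (X : 𝒱.Obj) : Nontrivial (H.A X) := ⟨1, 0, hH.one_ne_zero X⟩

/-- The push-forward of `z × Y` to `Y` is a multiple of the trace of `z`. -/
lemma exists_lam (X : 𝒱.Obj) : ∃ l : K, ∀ z : H.A X,
    H.push (snd X X) (H.pull (fst X X) z) = (l * H.tr X z) • (1 : H.A X) := by
  -- a class with nonzero trace
  have hz0 : ∃ z0 : H.A X, H.tr X z0 ≠ 0 := by
    by_contra hcon
    push Not at hcon
    apply hH.one_ne_zero X
    apply H.nondeg
    intro b
    exact hcon _
  obtain ⟨z0, hz0⟩ := hz0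
  have hz1 : ∃ z0 : H.A X, z0 ∈ H.gr X (2 * X.dim) ∧ H.tr X z0 ≠ 0 := by
    by_contra hcon
    push Not at hcon
    apply hz0
    have h0 : H.tr X = 0 := by
      apply ext_gr H
      intro i a ha
      rw [LinearMap.zero_apply]
      by_cases hi : i = 2 * X.dim
      · subst hi
        exact hcon a ha
      · exact tr_zero H ha hi
    rw [h0, LinearMap.zero_apply]
  obtain ⟨y, hy, hy0⟩ := hz1
  -- push-forwards of classes of top degree
  have hdeg0 : ∀ z ∈ H.gr X (2 * X.dim), ∃ c : K,
      H.push (snd X X) (H.pull (fst X X) z) = c • (1 : H.A X) := by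
    intro z hz
    apply hH.gr_zero
    have h1 := H.push_mem (snd X X) (H.pull_mem (fst X X) hz)
    have e : 2 * (X.dim : ℤ) + 2 * ((X.dim : ℤ) - ((X.prod X).dim : ℤ)) = 0 := by
      rw [dim_prod]; push_cast; ring
    rwa [e] at h1
  have hdeg1 : ∀ z ∈ H.gr X (2 * X.dim), ∃ c : K,
      H.push (fst X X) (H.pull (snd X X) z) = c • (1 : H.A X) := by
    intro z hz
    apply hH.gr_zero
    have h1 := H.push_mem (fst X X) (H.pull_mem (snd X X) hz)
    have e : 2 * (X.dim : ℤ) + 2 * ((X.dim : ℤ) - ((X.prod X).dim : ℤ)) = 0 := by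
      rw [dim_prod]; push_cast; ring
    rwa [e] at h1
  obtain ⟨c', hc'⟩ := hdeg1 y hy
  refine ⟨c' / H.tr X y, ?_⟩
  have key : (H.push (snd X X) ∘ₗ (H.pull (fst X X)).toLinearMap) =
      (LinearMap.toSpanSingleton K (H.A X) 1) ∘ₗ ((c' / H.tr X y) • H.tr X) := by
    apply ext_gr H
    intro i z hz
    rw [LinearMap.comp_apply, LinearMap.comp_apply, LinearMap.toSpanSingleton_apply,
      LinearMap.smul_apply, AlgHom.toLinearMap_apply]
    by_cases hi : i = 2 * X.dim
    · subst hi
      obtain ⟨c, hc⟩ := hdeg0 z hz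
      rw [hc]
      congr 1
      have h1 : H.tr X (H.push (snd X X) (H.pull (fst X X) z) * y) =
          H.tr X (z * H.push (fst X X) (H.pull (snd X X) y)) := by
        rw [← H.proj_right, H.tr_push, ← H.proj_left, H.tr_push]
      rw [hc, hc', smul_mul_assoc, one_mul, mul_smul_comm, mul_one, map_smul, map_smul,
        smul_eq_mul, smul_eq_mul] at h1
      rw [smul_eq_mul, div_mul_eq_mul_div, eq_div_iff hy0]
      exact h1
    · rw [tr_zero H hz hi, smul_zero, zero_smul]
      by_cases hz0 : z = 0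
      · rw [hz0, map_zero, map_zero]
      have h2 : i < 2 * X.dim := by
        by_contra h3
        rw [gr_top H (by omega : 2 * (X.dim : ℤ) < i)] at hz
        exact hz0 ((Submodule.mem_bot _).1 hz)
      have h1 := H.push_mem (snd X X) (H.pull_mem (fst X X) hz)
      rw [H.gr_neg X _ (by rw [dim_prod]; push_cast; omega)] at h1
      exact (Submodule.mem_bot _).1 h1
  intro z
  have h := LinearMap.congr_fun key z
  rw [LinearMap.comp_apply, LinearMap.comp_apply, LinearMap.toSpanSingleton_apply,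
    LinearMap.smul_apply, AlgHom.toLinearMap_apply, smul_eq_mul] at h
  exact h

/-- The isomorphism of the cohomology with the direct sum of the graded pieces. -/
noncomputable def eqvH (Y : 𝒱.Obj) : (DirectSum ℤ fun i => H.gr Y i) ≃ₗ[K] H.A Y :=
  LinearEquiv.ofBijective (DirectSum.coeLinearMap (H.gr Y)) (H.isInternal Y)

/-- The component of degree `i`. -/
noncomputable def cmpH (Y : 𝒱.Obj) (i : ℤ) : H.A Y →ₗ[K] H.A Y :=
  (H.gr Y i).subtype ∘ₗ DirectSum.component K ℤ (fun i => H.gr Y i) i ∘ₗ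
    (eqvH H Y).symm.toLinearMap

lemma eqvH_symm_of_mem {i : ℤ} {x : H.A Y} (hx : x ∈ H.gr Y i) :
    (eqvH H Y).symm x = DirectSum.lof K ℤ (fun i => H.gr Y i) i ⟨x, hx⟩ := by
  rw [LinearEquiv.symm_apply_eq]
  exact (DirectSum.coeLinearMap_lof (H.gr Y) i ⟨x, hx⟩).symm

lemma cmpH_self {i : ℤ} {x : H.A Y} (hx : x ∈ H.gr Y i) : cmpH H Y i x = x := by
  rw [cmpH, LinearMap.comp_apply, LinearMap.comp_apply, LinearEquiv.coe_toLinearMap,
    eqvH_symm_of_mem H hx, DirectSum.component.lof_self]
  rfl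

lemma cmpH_ne {i j : ℤ} {x : H.A Y} (hx : x ∈ H.gr Y i) (hij : i ≠ j) : cmpH H Y j x = 0 := by
  rw [cmpH, LinearMap.comp_apply, LinearMap.comp_apply, LinearEquiv.coe_toLinearMap,
    eqvH_symm_of_mem H hx, DirectSum.component.of, dif_neg hij]
  rfl

/-- The parity operator. -/
noncomputable def sgn (X : 𝒱.Obj) : H.A X →ₗ[K] H.A X :=
  ∑ i ∈ Finset.Icc (0 : ℤ) (2 * X.dim), ((-1 : K) ^ i) • cmpH H X i

lemma sgn_apply {i : ℤ} {x : H.A X} (hx : x ∈ H.gr X i) : sgn H X x = ((-1 : K) ^ i) • x := by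
  by_cases hx0 : x = 0
  · rw [hx0, map_zero, smul_zero]
  have h0 := nonneg_of_mem H hx hx0
  have h1 : i ≤ 2 * X.dim := by
    by_contra h3
    rw [gr_top H (by omega : 2 * (X.dim : ℤ) < i)] at hx
    exact hx0 ((Submodule.mem_bot _).1 hx)
  rw [sgn, LinearMap.sum_apply, Finset.sum_eq_single_of_mem i (Finset.mem_Icc.2 ⟨h0, h1⟩)]
  · rw [LinearMap.smul_apply, cmpH_self H hx]
  · intro j _ hj
    rw [LinearMap.smul_apply, cmpH_ne H hx hj.symm, smul_zero]

/-- The trace formula of Lefschetz. -/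
theorem trace_formula (hcomm : GradedComm H) (X : 𝒱.Obj) [FiniteDimensional K (H.A X)] {l : K}
    (hl : ∀ z : H.A X, H.push (snd X X) (H.pull (fst X X) z) = (l * H.tr X z) • (1 : H.A X))
    (w : H.A (X.prod X)) : LinearMap.trace K (H.A X) (sgn H X ∘ₗ H.actL w) =
      l * H.tr X (H.pull (Obj.lift (𝟙 X) (𝟙 X)) w) := by
  -- both sides as linear maps
  let L : H.A (X.prod X) →ₗ[K] K :=
    LinearMap.trace K (H.A X) ∘ₗ (LinearMap.llcomp K (H.A X) (H.A X) (H.A X) (sgn H X)) ∘ₗ
      { toFun := fun w => H.actL w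
        map_add' := fun a b => LinearMap.ext fun x => H.act_add a b x
        map_smul' := fun q a => LinearMap.ext fun x => by
          change H.act (q • a) x = q • H.act a x
          rw [TheoryData.act_apply, TheoryData.act_apply, smul_mul_assoc, map_smul] }
  let M : H.A (X.prod X) →ₗ[K] K :=
    l • (H.tr X ∘ₗ (H.pull (Obj.lift (𝟙 X) (𝟙 X))).toLinearMap)
  have hLM : L = M := by
    apply ext_gr H
    intro m w hw
    have h1 := H.kunneth X X m hw
    refine Submodule.span_induction (p := fun w _ => L w = M w) ?_ ?_ ?_ ?_ h1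
    · rintro _ ⟨i, a, b, ha, hb, rfl⟩
      set j := m - i with hj
      -- the operator
      have hop : H.actL (H.pull (fst X X) a * H.pull (snd X X) b) =
          ((-1 : K) ^ (i * j) * l) • ((H.tr X ∘ₗ LinearMap.mulLeft K a).smulRight b) := by
        apply ext_gr H
        intro n c hc
        rw [H.actL_apply, TheoryData.act_apply, LinearMap.smul_apply, LinearMap.smulRight_apply,
          LinearMap.comp_apply, LinearMap.mulLeft_apply]
        have e1 : H.pull (snd X X) b * H.pull (fst X X) c = ((-1 : K) ^ (j * n)) •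
            (H.pull (fst X X) c * H.pull (snd X X) b) :=
          hcomm (X.prod X) j n _ _ (H.pull_mem _ hb) (H.pull_mem _ hc)
        rw [mul_assoc, e1, mul_smul_comm, ← mul_assoc, ← map_mul, map_smul, H.proj_right, hl,
          smul_mul_assoc, one_mul, smul_smul, smul_smul]
        by_cases hn : i + n = 2 * X.dim
        · congr 1
          have e2 : (-1 : K) ^ (j * n) = (-1 : K) ^ (i * j) := by
            apply neg_one_zpow_mod
            have : j * n - i * j = 2 * (j * (X.dim - i)) := by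
              have hn' : n = 2 * X.dim - i := by omega
              rw [hn']; ring
            rw [this]
            exact even_two_mul _
          rw [e2, mul_assoc]
        · rw [tr_zero H (H.mul_mem ha hc) hn, mul_zero, mul_zero, mul_zero, zero_smul]
      have hLa : L (H.pull (fst X X) a * H.pull (snd X X) b) =
          LinearMap.trace K (H.A X) (sgn H X ∘ₗ
            H.actL (H.pull (fst X X) a * H.pull (snd X X) b)) := rfl
      have hMa : M (H.pull (fst X X) a * H.pull (snd X X) b) = l * H.tr X (a * b) := by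
        change l * H.tr X (H.pull (Obj.lift (𝟙 X) (𝟙 X)) (H.pull (fst X X) a *
          H.pull (snd X X) b)) = _
        rw [map_mul, ← H.pull_comp, ← H.pull_comp, lift_fst, lift_snd, H.pull_id, H.pull_id]
      have hcomp : sgn H X ∘ₗ (((-1 : K) ^ (i * j) * l) •
          ((H.tr X ∘ₗ LinearMap.mulLeft K a).smulRight b)) =
          (((-1 : K) ^ (i * j) * l) * (-1 : K) ^ j) •
            ((H.tr X ∘ₗ LinearMap.mulLeft K a).smulRight b) := by
        apply LinearMap.ext
        intro c
        rw [LinearMap.comp_apply, LinearMap.smul_apply, LinearMap.smulRight_apply,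
          LinearMap.smul_apply, LinearMap.smulRight_apply, map_smul, map_smul, sgn_apply H hb,
          smul_smul, smul_smul, smul_smul]
        congr 1
        ring
      rw [hLa, hMa, hop, hcomp, map_smul, LinearMap.trace_smulRight, LinearMap.comp_apply,
        LinearMap.mulLeft_apply, smul_eq_mul]
      by_cases hn : i + j = 2 * X.dim
      · have e2 : (-1 : K) ^ (i * j) * (-1 : K) ^ j = 1 := by
          rw [← zpow_add₀ (by norm_num : (-1 : K) ≠ 0)]
          apply Even.neg_one_zpow
          have : i * j + j = j * (j + 1) + 2 * (j * (X.dim - j)) := by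
            have hn' : i = 2 * X.dim - j := by omega
            rw [hn']; ring
          rw [this]
          exact (Int.even_mul_succ_self j).add (even_two_mul _)
        have e3 : (-1 : K) ^ (i * j) * l * (-1 : K) ^ j =
            ((-1 : K) ^ (i * j) * (-1 : K) ^ j) * l := by ring
        rw [e3, e2, one_mul]
      · rw [tr_zero H (H.mul_mem ha hb) hn, mul_zero, mul_zero]
    · rw [map_zero, map_zero]
    · intro x y _ _ hx hy
      rw [map_add, map_add, hx, hy]
    · intro q x _ hx
      rw [map_smul, map_smul, hx]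
  exact LinearMap.congr_fun hLM w

/-- The coefficient field has characteristic zero. -/
lemma charZero (X : 𝒱.Obj) : CharZero K := by
  have := nontrivial_A H X
  refine ⟨fun m n h => ?_⟩
  by_contra hmn
  have h1 : ((m : ℤ) - n : ℤ) ≠ 0 := by
    intro h2
    apply hmn
    exact_mod_cast sub_eq_zero.1 h2
  have h2 : (((m : ℤ) - n : ℤ) : ℚ) ≠ 0 := by exact_mod_cast h1
  have h3 := cl_smul_one_ne H (X := X) h2
  apply h3
  have h4 : (((m : ℤ) - n : ℤ) : ℚ) • (1 : C.A X) = (((m : ℤ) - n : ℤ) : C.A X) := by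
    rw [Int.cast_smul_eq_zsmul, zsmul_eq_mul, mul_one]
  rw [h4, map_intCast]
  have h5 : (((m : ℤ) - n : ℤ) : H.A X) = algebraMap K (H.A X) (((m : ℤ) - n : ℤ) : K) := by
    rw [map_intCast]
  have h6 : (((m : ℤ) - n : ℤ) : K) = 0 := by
    push_cast
    rw [h, sub_self]
  rw [h5, h6, map_zero]

lemma cl_smul_one (X : 𝒱.Obj) (q : ℚ) : H.cl (q • (1 : C.A X)) = (q : K) • (1 : H.A X) := by
  have := charZero H X
  have hd : (q.den : K) ≠ 0 := by exact_mod_cast q.den_ne_zero
  have h1 : (q.den : ℚ) • (q • (1 : C.A X)) = (q.num : ℚ) • (1 : C.A X) := by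
    rw [smul_smul]
    congr 1
    rw [mul_comm]
    exact Rat.mul_den_eq_num q
  have h2 := congrArg H.cl h1
  have h3 : ∀ (n : ℤ) (x : C.A X), H.cl ((n : ℚ) • x) = (n : K) • H.cl x := by
    intro n x
    rw [Int.cast_smul_eq_zsmul, map_zsmul, Int.cast_smul_eq_zsmul]
  have h4 := h3 q.den (q • (1 : C.A X))
  have h5 := h3 q.num (1 : C.A X)
  push_cast at h4
  rw [h4, h5, map_one] at h2
  have h6 : H.cl (q • (1 : C.A X)) = ((q.den : K)⁻¹ * (q.num : K)) • (1 : H.A X) := by
    rw [mul_smul, ← h2, smul_smul, inv_mul_cancel₀ hd, one_smul]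
  rw [h6, Rat.cast_def]
  congr 1
  rw [div_eq_mul_inv, mul_comm]

/-- The trace formula for algebraic correspondences. -/
theorem trace_cor (hcomm : GradedComm H) (hne : ∀ X : 𝒱.Obj, (1 : C.A X) ≠ 0) (X : 𝒱.Obj)
    [FiniteDimensional K (H.A X)] (x : Cor C X) :
    LinearMap.trace K (H.A X) (sgn H X ∘ₗ H.actL (H.cl (cA C X x))) = (trA hne X x : K) := by
  obtain ⟨l, hl⟩ := exists_lam H X
  rw [trace_formula H hcomm X hl]
  have h1 := (trA_spec (hne := hne) x X).1
  have h2 := congrArg H.cl h1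
  rw [H.cl_push, H.cl_pull, hl, cl_smul_one, ev, H.cl_pull] at h2
  have h3 := sub_eq_zero.2 h2
  rw [← sub_smul, smul_eq_zero] at h3
  rcases h3 with h3 | h3
  · exact sub_eq_zero.1 h3
  · exact absurd h3 (hH.one_ne_zero X)

end weil

end Pool.Agent.Y121.NK
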