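import Pool.Agent.Y121.NK.Quot
import Pool.Agent.Y121.NK.Lefschetz

/-!
# Noncommutative motives modulo homological equivalence
-/

open CategoryTheory AlgebraicGeometry

universe u v w

namespace Pool.Agent.Y121.NK

open Pool.Agent.H914 Pool.Agent.H914.VarClass Pool.Agent.H914.VarClass.Obj Pool.Agent.W492.BB
  Pool.Agent.W550.Corr Pool.Agent.TH133 Pool.Agent.TH829.Prime Pool.Agent.TH829.Kim

set_option linter.unusedSectionVars false

variable {k : Type u} [Field k] {𝒱 : VarClass k}

section weil

variable {C : TheoryData.{u, v, 0} 𝒱 ℚ} [hC : IsChowProj C] {K : Type w} [Field K]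
  (H : WeilTheoryData.{u, v, w} C K) [hH : IsWeilProj H] {X Y Z W : 𝒱.Obj}

include hC hH

/-- The ideal of the homologically trivial self-correspondences. -/
noncomputable def homI (X : 𝒱.Obj) : Ideal (Cor C X) := RingHom.ker (actH C X H)

instance homI_twoSided (X : 𝒱.Obj) : (homI H X).IsTwoSided :=
  inferInstanceAs (RingHom.ker (actH C X H)).IsTwoSided

lemma mem_homI {x : Cor C X} : x ∈ homI H X ↔ H.cl (cA C X x) = 0 := by
  constructor
  · intro h
    apply eq_zero_of_act H
    intro a
    have h1 : actH C X H x = 0 := h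
    have h2 := LinearMap.congr_fun h1 a
    exact h2
  · intro h
    change actH C X H x = 0
    apply LinearMap.ext
    intro a
    change H.act (H.cl (cA C X x)) a = 0
    rw [h]
    exact H.act_zero a

lemma actH_eq_iff {x y : Cor C X} : actH C X H x = actH C X H y ↔ x - y ∈ homI H X := by
  constructor
  · intro h
    change actH C X H (x - y) = 0
    rw [map_sub, h, sub_self]
  · intro h
    have h1 : actH C X H (x - y) = 0 := h
    rwa [map_sub, sub_eq_zero] at h1

lemma homEq_iff {x y : Cor C X} : HomEq H (cA C X x) (cA C X y) ↔ x - y ∈ homI H X := by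
  rw [mem_homI, map_sub, map_sub, sub_eq_zero]
  rfl

/-- The action of a homogeneous correspondence shifts the degrees. -/
lemma actH_shift {j : ℤ} {x : Cor C X} (hx : (grading C X).pr j x = x) {i : ℤ} {a : H.A X}
    (ha : a ∈ H.gr X i) : actH C X H x a ∈ H.gr X (i + 2 * j) := by
  rw [grading_pr, prC_iff] at hx
  have h := actH_mem (H := H) (X := X) (Y := X) hx ha
  exact h

/-- The action of the components of a correspondence. -/
lemma cmpH_act (x : Cor C X) (j : ℤ) {i : ℤ} {a : H.A X} (ha : a ∈ H.gr X i) :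
    cmpH H X (i + 2 * j) (actH C X H x a) = actH C X H ((grading C X).pr j x) a := by
  conv_lhs => rw [← (grading C X).sum_pr x]
  rw [map_sum, LinearMap.sum_apply, map_sum]
  have h1 : ∀ l : ℤ, l ≠ j → cmpH H X (i + 2 * j) (actH C X H ((grading C X).pr l x) a) = 0 := by
    intro l hl
    exact cmpH_ne H (actH_shift H ((grading C X).pr_self l x) ha) (by omega)
  by_cases hj : j ∈ Finset.Icc (-((grading C X).d : ℤ)) (grading C X).d
  · rw [Finset.sum_eq_single_of_mem j hj (fun l _ hl => h1 l hl)]
    exact cmpH_self H (actH_shift H ((grading C X).pr_self j x) ha)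
  · rw [(grading C X).pr_out hj, map_zero, LinearMap.zero_apply]
    exact Finset.sum_eq_zero fun l hl => h1 l (fun h => hj (h ▸ hl))

lemma homI_pr {x : Cor C X} (hx : x ∈ homI H X) (j : ℤ) : (grading C X).pr j x ∈ homI H X := by
  have h0 : actH C X H x = 0 := hx
  change actH C X H ((grading C X).pr j x) = 0
  apply ext_gr H
  intro i a ha
  rw [← cmpH_act H x j ha, h0, LinearMap.zero_apply, map_zero]

variable (hne : ∀ X : 𝒱.Obj, (1 : C.A X) ≠ 0)

lemma trA_homI {x : Cor C X} (hx : x ∈ homI H X) : trA hne X x = 0 := by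
  by_contra hcon
  have h1 := (trA_spec (hne := hne) x X).1
  have h2 := congrArg H.cl h1
  rw [H.cl_push, H.cl_pull, ev, H.cl_pull, (mem_homI H).1 hx, map_zero, map_zero, map_zero] at h2
  exact cl_smul_one_ne H hcon h2.symm

/-- The trace form has finite rank. -/
lemma exists_finite' (X : 𝒱.Obj) [FiniteDimensional K (H.A (X.prod X))] :
    ∃ (n : ℕ) (y : Fin n → Cor C X), ∀ x, (∀ i, trA hne X (x * y i) = 0) →
      InRad (trA hne X) x := by
  obtain ⟨b, hb, hspan, hli⟩ := exists_linearIndependent K
    (Set.range fun y : Cor C X => H.cl (cA C X y))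
  have hbfin : b.Finite := hli.setFinite
  obtain ⟨n, g, -, hg⟩ := hbfin.fin_param
  have h1 : ∀ i, ∃ y : Cor C X, H.cl (cA C X y) = g i := by
    intro i
    have h2 : g i ∈ b := hg ▸ Set.mem_range_self i
    exact hb h2
  choose y hy using h1
  refine ⟨n, y, ?_⟩
  intro x hx γ
  let Φ : H.A (X.prod X) →ₗ[K] H.A (X.prod X) :=
    H.push (snd (X.prod X) (X.prod X)) ∘ₗ (H.pull (fst (X.prod X) (X.prod X))).toLinearMap ∘ₗ
      LinearMap.mulRight K (H.cl (tp C (cA C X x)))
  have hΦ : ∀ z : Cor C X, Φ (H.cl (cA C X z)) =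
      H.cl ((trA hne X (x * z)) • (1 : C.A (X.prod X))) := by
    intro z
    have h3 := (trA_mul (hne := hne) x z (X.prod X)).1
    rw [← h3, H.cl_push, H.cl_pull, map_mul]
    rfl
  have hker : ∀ w ∈ Submodule.span K (Set.range fun y : Cor C X => H.cl (cA C X y)), Φ w = 0 := by
    rw [← hspan]
    intro w hw
    have h4 : Submodule.span K b ≤ LinearMap.ker Φ := by
      rw [Submodule.span_le]
      intro c hc
      rw [← hg] at hc
      obtain ⟨i, rfl⟩ := hc
      change Φ (g i) = 0
      rw [← hy i, hΦ, hx i, zero_smul, map_zero]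
    exact h4 hw
  by_contra hcon
  have h7 := hker (H.cl (cA C X γ)) (Submodule.subset_span ⟨γ, rfl⟩)
  rw [hΦ] at h7
  exact cl_smul_one_ne H hcon h7

/-- The trace on the self-correspondences modulo homological equivalence. -/
noncomputable abbrev trH (X : 𝒱.Obj) : (Cor C X ⧸ homI H X) →ₗ[ℚ] ℚ :=
  BGr.trQ (trA hne X) (homI H X) fun _ hx => trA_homI H hne hx

/-- The existence of a homogeneous model modulo homological equivalence. -/
theorem exists_model (X : 𝒱.Obj) [FiniteDimensional K (H.A (X.prod X))] {e : Cor C X}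
    (he : e * e - e ∈ homI H X)
    (hge : Good (trH H hne X) (Ideal.Quotient.mk (homI H X) e)) :
    ∃ p u v : Cor C X, (grading C X).pr 0 p = p ∧ p * p - p ∈ homI H X ∧
      u * v - e ∈ homI H X ∧ v * u - p ∈ homI H X :=
  exists_homogeneous_quot (grading C X) (trA hne X) (homI H X) _
    (fun a b => trA_comm a b) (fun j x hj => trA_pr j x hj) (fun _ hx j => homI_pr H hx j)
    (exists_finite' H hne X) he hge

/-! ### The parity operator -/

/-- Correspondences preserve the parity. -/
lemma sgn_act (x : Cor C X) : sgn H X ∘ₗ actH C X H x = actH C X H x ∘ₗ sgn H X := by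
  apply ext_gr H
  intro i a ha
  rw [LinearMap.comp_apply, LinearMap.comp_apply, sgn_apply H ha, map_smul]
  conv_lhs => rw [← (grading C X).sum_pr x]
  conv_rhs => rw [← (grading C X).sum_pr x]
  rw [map_sum, LinearMap.sum_apply, map_sum, Finset.smul_sum]
  apply Finset.sum_congr rfl
  intro j _
  rw [sgn_apply H (actH_shift H ((grading C X).pr_self j x) ha)]
  congr 1
  apply neg_one_zpow_mod
  have : i + 2 * j - i = 2 * j := by ring
  rw [this]
  exact even_two_mul _

/-- The even part of a class. -/
noncomputable def evP (X : 𝒱.Obj) : H.A X →ₗ[K] H.A X :=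
  (2 : K)⁻¹ • (LinearMap.id + sgn H X)

lemma evP_even {i : ℤ} {a : H.A X} (ha : a ∈ H.gr X i) (hi : Even i) : evP H X a = a := by
  have := charZero H X
  rw [evP, LinearMap.smul_apply, LinearMap.add_apply, LinearMap.id_apply, sgn_apply H ha,
    Even.neg_one_zpow hi, one_smul, ← two_smul K a, smul_smul, inv_mul_cancel₀ two_ne_zero,
    one_smul]

lemma evP_odd {i : ℤ} {a : H.A X} (ha : a ∈ H.gr X i) (hi : Odd i) : evP H X a = 0 := by
  rw [evP, LinearMap.smul_apply, LinearMap.add_apply, LinearMap.id_apply, sgn_apply H ha,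
    Odd.neg_one_zpow hi, neg_smul, one_smul, add_neg_cancel, smul_zero]

lemma evP_act (x : Cor C X) : evP H X ∘ₗ actH C X H x = actH C X H x ∘ₗ evP H X := by
  rw [evP, LinearMap.smul_comp, LinearMap.comp_smul, LinearMap.add_comp, LinearMap.comp_add,
    sgn_act, LinearMap.id_comp, LinearMap.comp_id]

lemma evP_evP : evP H X ∘ₗ evP H X = evP H X := by
  apply ext_gr H
  intro i a ha
  rw [LinearMap.comp_apply]
  rcases Int.even_or_odd i with h | h
  · rw [evP_even H ha h, evP_even H ha h]
  · rw [evP_odd H ha h, map_zero]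

lemma sgn_evP : sgn H X ∘ₗ evP H X = evP H X := by
  apply ext_gr H
  intro i a ha
  rw [LinearMap.comp_apply]
  rcases Int.even_or_odd i with h | h
  · rw [evP_even H ha h, sgn_apply H ha, Even.neg_one_zpow h, one_smul]
  · rw [evP_odd H ha h, map_zero]

lemma sgn_odP : sgn H X ∘ₗ (LinearMap.id - evP H X) = -(LinearMap.id - evP H X) := by
  apply ext_gr H
  intro i a ha
  rw [LinearMap.comp_apply, LinearMap.neg_apply, LinearMap.sub_apply, LinearMap.id_apply]
  rcases Int.even_or_odd i with h | h
  · rw [evP_even H ha h, sub_self, map_zero, neg_zero]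
  · rw [evP_odd H ha h, sub_zero, sgn_apply H ha, Odd.neg_one_zpow h, neg_smul, one_smul]

/-- The definition of `ActsAsEvenPart` in terms of operators. -/
lemma actsAsEvenPart_iff {e π : Cor C X} : ActsAsEvenPart H (cA C X e) (cA C X π) ↔
    actH C X H π = actH C X H e ∘ₗ evP H X := by
  constructor
  · rintro ⟨h1, h2⟩
    apply ext_gr H
    intro i a ha
    rw [LinearMap.comp_apply]
    rcases Int.even_or_odd i with h | h
    · rw [evP_even H ha h]
      exact h1 i a h ha
    · rw [evP_odd H ha h, map_zero]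
      exact h2 i a h ha
  · intro h
    constructor
    · intro i a hi ha
      have h1 := LinearMap.congr_fun h a
      rw [LinearMap.comp_apply, evP_even H ha hi] at h1
      exact h1
    · intro i a hi ha
      have h1 := LinearMap.congr_fun h a
      rw [LinearMap.comp_apply, evP_odd H ha hi, map_zero] at h1
      exact h1

/-- The trace formula for operators fixed up to sign by the parity operator. -/
lemma good_of_sign (hcomm : GradedComm H) [FiniteDimensional K (H.A X)] {g : Cor C X} {s : K}
    (hs : s ≠ 0) (hgg : g * g - g ∈ homI H X)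
    (hg : sgn H X ∘ₗ actH C X H g = s • actH C X H g) :
    Good (trH H hne X) (Ideal.Quotient.mk (homI H X) g) := by
  have := charZero H X
  have hsym' : ∀ a b, trH H hne X (a * b) = trH H hne X (b * a) := by
    intro a b
    obtain ⟨a, rfl⟩ := Ideal.Quotient.mk_surjective a
    obtain ⟨b, rfl⟩ := Ideal.Quotient.mk_surjective b
    rw [← map_mul, ← map_mul]
    change trA hne X (a * b) = trA hne X (b * a)
    exact trA_comm a b
  refine good_of_bounded hsym' (m := Module.finrank K (H.A X)) ?_ ?_
  · rw [← map_mul]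
    exact (Ideal.Quotient.mk_eq_mk_iff_sub_mem _ _).2 hgg
  intro b hb hgb hbg
  obtain ⟨b, rfl⟩ := Ideal.Quotient.mk_surjective b
  rw [← map_mul, Ideal.Quotient.mk_eq_mk_iff_sub_mem, ← actH_eq_iff] at hgb
  rw [trQ_inRad] at hb
  have h1 : (actH C X H b) ^ (Module.finrank K (H.A X)) = 0 := by
    apply pow_finrank_eq_zero
    intro r
    have h2 : sgn H X ∘ₗ actH C X H (b ^ (r + 1)) = s • actH C X H (b ^ (r + 1)) := by
      rw [pow_succ', map_mul, ← hgb, map_mul, mul_assoc]
      change sgn H X ∘ₗ (actH C X H g ∘ₗ _) = _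
      rw [← LinearMap.comp_assoc, hg, LinearMap.smul_comp]
      rfl
    have h3 := trace_cor H hcomm hne X (b ^ (r + 1))
    have h4 : trA hne X (b ^ (r + 1)) = 0 := hb.tr_pow (r + 1) (by omega)
    rw [h4, Rat.cast_zero] at h3
    have h5 : LinearMap.trace K (H.A X) (sgn H X ∘ₗ actH C X H (b ^ (r + 1))) = 0 := h3
    rw [h2, map_smul, smul_eq_mul] at h5
    have h6 := (mul_eq_zero.1 h5).resolve_left hs
    rw [← map_pow]
    exact h6
  rw [← map_pow, Ideal.Quotient.eq_zero_iff_mem]
  change actH C X H (b ^ (Module.finrank K (H.A X))) = 0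
  rw [map_pow]
  exact h1

end weil

end Pool.Agent.Y121.NK
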