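import Mathlib.RingTheory.SimpleModule.Basic
import Mathlib.RingTheory.Jacobson.Semiprimary
import Mathlib.RingTheory.Artinian.Module
import Mathlib.Algebra.Algebra.Rat
import Mathlib.Algebra.Order.Interval.Finset.Basic
import Mathlib.Data.Int.Interval
import Mathlib.Tactic.NoncommRing

/-!
# Idempotents of graded rings with semisimple quotients are isomorphic to homogeneous ones
-/

namespace Pool.Agent.Y121.NK

/-- A grading of the algebra `R` by the integers in `[-d, d]`, given by its projections. -/
structure BGr (R : Type*) [Ring R] [Algebra ℚ R] where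
  /-- the bound -/
  d : ℕ
  /-- the homogeneous components -/
  pr : ℤ → R →ₗ[ℚ] R
  pr_self : ∀ i x, pr i (pr i x) = pr i x
  pr_ne : ∀ i j x, i ≠ j → pr i (pr j x) = 0
  sum_pr : ∀ x, ∑ j ∈ Finset.Icc (-(d : ℤ)) d, pr j x = x
  pr_one : pr 0 1 = 1
  pr_mul_left : ∀ i j x y, pr i x = x → pr (i + j) (x * y) = x * pr j y
  pr_mul_right : ∀ i j x y, pr j y = y → pr (i + j) (x * y) = pr i x * y

namespace BGr

variable {R : Type*} [Ring R] [Algebra ℚ R] (G : BGr R)

lemma pr_out {j : ℤ} (hj : j ∉ Finset.Icc (-(G.d : ℤ)) G.d) (x : R) : G.pr j x = 0 := by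
  conv_lhs => rw [← G.sum_pr x]
  rw [map_sum]
  apply Finset.sum_eq_zero
  intro i hi
  exact G.pr_ne j i x (fun h => hj (h ▸ hi))

lemma pr_mul (n : ℤ) (x y : R) :
    G.pr n (x * y) = ∑ i ∈ Finset.Icc (-(G.d : ℤ)) G.d, G.pr i x * G.pr (n - i) y := by
  conv_lhs => rw [← G.sum_pr x]
  rw [Finset.sum_mul, map_sum]
  apply Finset.sum_congr rfl
  intro i _
  have h := G.pr_mul_left i (n - i) (G.pr i x) y (G.pr_self i x)
  rwa [add_sub_cancel] at h

/-- The leading terms of a product. -/
lemma lead {T : Type*} [Ring T] (π : R →+* T) {a b : ℤ} {x y : R}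
    (hx : ∀ i, a < i → π (G.pr i x) = 0) (hy : ∀ i, b < i → π (G.pr i y) = 0) :
    (∀ i, a + b < i → π (G.pr i (x * y)) = 0) ∧
      π (G.pr (a + b) (x * y)) = π (G.pr a x) * π (G.pr b y) := by
  have key : ∀ n i : ℤ, a + b ≤ n → (i = a → n - i = b → False) →
      π (G.pr i x * G.pr (n - i) y) = 0 := by
    intro n i hn h
    rw [map_mul]
    by_cases h1 : a < i
    · rw [hx i h1, zero_mul]
    · have h2 : b < n - i := by
        by_contra h3
        exact h (by omega) (by omega)
      rw [hy _ h2, mul_zero]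
  constructor
  · intro n hn
    rw [G.pr_mul, map_sum]
    exact Finset.sum_eq_zero fun i _ => key n i hn.le (fun h1 h2 => by omega)
  · rw [G.pr_mul, map_sum]
    by_cases ha : a ∈ Finset.Icc (-(G.d : ℤ)) G.d
    · rw [Finset.sum_eq_single_of_mem a ha (fun i _ hi => key _ i le_rfl (fun h _ => hi h)),
        map_mul, show a + b - a = b by ring]
    · rw [G.pr_out ha, map_zero, zero_mul]
      exact Finset.sum_eq_zero fun i hi => key _ i le_rfl (fun h _ => ha (h ▸ hi))

lemma map_eq_zero_of {T : Type*} [Ring T] (π : R →+* T) {x : R}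
    (hx : ∀ i, π (G.pr i x) = 0) : π x = 0 := by
  conv_lhs => rw [← G.sum_pr x]
  rw [map_sum]
  exact Finset.sum_eq_zero fun i _ => hx i

/-- An idempotent of a graded ring with a graded semisimple quotient is isomorphic, in the quotient,
to a homogeneous idempotent. -/
theorem exists_homogeneous {T : Type*} [Ring T] [IsSemisimpleRing T] (π : R →+* T)
    (hπ : Function.Surjective π) (hker : ∀ x, π x = 0 → ∀ j, π (G.pr j x) = 0) {e : R}
    (he : e * e = e) : ∃ p u v : R, G.pr 0 p = p ∧ π (p * p) = π p ∧ π (u * v) = π e ∧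
      π (v * u) = π p ∧ π (u * p) = π u ∧ π (p * v) = π v ∧ e * u = u ∧ v * e = v := by
  classical
  have hπe : π e * π e = π e := by rw [← map_mul, he]
  -- the left ideal generated by `e`
  let I : Ideal T := Ideal.span {π e}
  have hIe : ∀ t ∈ I, t * π e = t := by
    intro t ht
    obtain ⟨a, rfl⟩ := Ideal.mem_span_singleton'.1 ht
    rw [mul_assoc, hπe]
  have hI' : ∀ t, t * π e ∈ I := fun t => Ideal.mem_span_singleton'.2 ⟨t, rfl⟩
  -- the initial left ideal
  let L : Ideal R :=
    { carrier := {x | ∀ d : ℤ, ∃ y, π y ∈ I ∧ (∀ n, d < n → π (G.pr n y) = 0) ∧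
        π (G.pr d y) = π (G.pr d x)}
      zero_mem' := fun d => ⟨0, by rw [map_zero]; exact I.zero_mem, fun n _ => by
        rw [map_zero, map_zero], rfl⟩
      add_mem' := by
        rintro x x' hx hx' d
        obtain ⟨y, h1, h2, h3⟩ := hx d
        obtain ⟨y', h1', h2', h3'⟩ := hx' d
        refine ⟨y + y', by rw [map_add]; exact I.add_mem h1 h1', fun n hn => ?_, ?_⟩
        · rw [map_add, map_add, h2 n hn, h2' n hn, add_zero]
        · rw [map_add, map_add, map_add, map_add, h3, h3']
      smul_mem' := by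
        intro r x hx d
        choose y h1 h2 h3 using hx
        refine ⟨∑ i ∈ Finset.Icc (-(G.d : ℤ)) G.d, G.pr i r * y (d - i), ?_, ?_, ?_⟩
        · rw [map_sum]
          exact I.sum_mem fun i _ => by
            rw [map_mul]
            exact I.mul_mem_left _ (h1 _)
        · intro n hn
          rw [map_sum, map_sum]
          apply Finset.sum_eq_zero
          intro i _
          have h4 := G.pr_mul_left i (n - i) (G.pr i r) (y (d - i)) (G.pr_self i r)
          rw [add_sub_cancel] at h4
          rw [h4, map_mul, h2 (d - i) (n - i) (by omega), mul_zero]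
        · rw [smul_eq_mul, G.pr_mul, map_sum, map_sum, map_sum]
          apply Finset.sum_congr rfl
          intro i _
          have h4 := G.pr_mul_left i (d - i) (G.pr i r) (y (d - i)) (G.pr_self i r)
          rw [add_sub_cancel] at h4
          rw [h4, map_mul, map_mul, h3] }
  have hLmem : ∀ x, x ∈ L ↔ ∀ d : ℤ, ∃ y, π y ∈ I ∧ (∀ n, d < n → π (G.pr n y) = 0) ∧
        π (G.pr d y) = π (G.pr d x) := fun x => Iff.rfl
  have hLpr : ∀ x ∈ L, ∀ j, G.pr j x ∈ L := by
    intro x hx j
    rw [hLmem]
    intro d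
    by_cases hd : d = j
    · subst hd
      obtain ⟨y, h1, h2, h3⟩ := (hLmem x).1 hx d
      exact ⟨y, h1, h2, by rw [G.pr_self, h3]⟩
    · exact ⟨0, by rw [map_zero]; exact I.zero_mem, fun n _ => by rw [map_zero, map_zero], by
        rw [G.pr_ne d j x hd, map_zero, map_zero]⟩
  -- a generator
  obtain ⟨q, hq, hLq⟩ := IsSemisimpleRing.ideal_eq_span_idempotent (Ideal.map π L)
  have hqL : q ∈ Ideal.map π L := by
    rw [hLq]
    exact Ideal.mem_span_singleton'.2 ⟨1, one_mul _⟩
  obtain ⟨q0, hq0, hq0'⟩ := (Ideal.mem_map_iff_of_surjective π hπ).1 hqL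
  have hb0 : ∀ x ∈ L, π (x * q0) = π x := by
    intro x hx
    have h1 : π x ∈ Ideal.map π L := Ideal.mem_map_of_mem π hx
    rw [hLq] at h1
    obtain ⟨a, ha⟩ := Ideal.mem_span_singleton'.1 h1
    rw [map_mul, hq0', ← ha, mul_assoc, hq.eq]
  set p := G.pr 0 q0 with hp
  have hpL : p ∈ L := hLpr q0 hq0 0
  have hpp : G.pr 0 p = p := G.pr_self 0 q0
  have hb : ∀ x ∈ L, π (x * p) = π x := by
    intro x hx
    have h1 : ∀ j, π (G.pr j x * p) = π (G.pr j x) := by
      intro j
      have h2 := hb0 _ (hLpr x hx j)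
      have h3 : π (G.pr j x * q0 - G.pr j x) = 0 := by rw [map_sub, h2, sub_self]
      have h4 := hker _ h3 j
      have h5 := G.pr_mul_left j 0 (G.pr j x) q0 (G.pr_self j x)
      rw [add_zero] at h5
      rw [map_sub, h5, G.pr_self, map_sub, sub_eq_zero] at h4
      exact h4
    have h6 : x * p = ∑ j ∈ Finset.Icc (-(G.d : ℤ)) G.d, G.pr j x * p := by
      rw [← Finset.sum_mul, G.sum_pr]
    conv_rhs => rw [← G.sum_pr x]
    rw [h6, map_sum, map_sum]
    exact Finset.sum_congr rfl fun j _ => h1 j
  have hπp : π (p * p) = π p := hb p hpL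
  -- the lift of the generator
  obtain ⟨y, hyI, hy1, hy2⟩ := (hLmem p).1 hpL 0
  rw [hpp] at hy2
  have hx1pr : ∀ n, G.pr n (p * y) = p * G.pr n y := by
    intro n
    have h := G.pr_mul_left 0 n p y hpp
    rwa [zero_add] at h
  set x1 := p * y with hx1
  have hx1I : π x1 ∈ I := by
    rw [hx1, map_mul]
    exact I.mul_mem_left _ hyI
  have hx1top : ∀ n, 0 < n → π (G.pr n x1) = 0 := by
    intro n hn
    rw [hx1pr, map_mul, hy1 n hn, mul_zero]
  have hx10 : π (G.pr 0 x1) = π p := by
    rw [hx1pr, map_mul, hy2, ← map_mul, hπp]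
  have hpx1 : π (p * x1) = π x1 := by
    rw [hx1, ← mul_assoc, map_mul, hπp, ← map_mul]
  have claim : ∀ m : ℕ, ∀ z, π z ∈ I → (∀ n : ℤ, (m : ℤ) - G.d - 1 < n → π (G.pr n z) = 0) →
      ∃ r, π z = π (r * x1) := by
    intro m
    induction m with
    | zero =>
      intro z _ hz
      refine ⟨0, ?_⟩
      rw [zero_mul, map_zero]
      apply G.map_eq_zero_of π
      intro i
      by_cases hi : i ∈ Finset.Icc (-(G.d : ℤ)) G.d
      · rw [Finset.mem_Icc] at hi
        exact hz i (by push_cast; omega)
      · rw [G.pr_out hi, map_zero]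
    | succ m ih =>
      intro z hzI hz
      set n0 : ℤ := (m : ℤ) - G.d with hn0
      have hzL : G.pr n0 z ∈ L := by
        rw [hLmem]
        intro d
        by_cases hd : d = n0
        · subst hd
          exact ⟨z, hzI, fun n hn => hz n (by push_cast; omega), by rw [G.pr_self]⟩
        · exact ⟨0, by rw [map_zero]; exact I.zero_mem, fun n _ => by rw [map_zero, map_zero], by
            rw [G.pr_ne d n0 z hd, map_zero, map_zero]⟩
      have h1 : ∀ n, G.pr n (G.pr n0 z * x1) = G.pr n0 z * G.pr (n - n0) x1 := by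
        intro n
        have h := G.pr_mul_left n0 (n - n0) (G.pr n0 z) x1 (G.pr_self n0 z)
        rwa [add_sub_cancel] at h
      obtain ⟨r, hr⟩ := ih (z - G.pr n0 z * x1) (by
          rw [map_sub, map_mul]
          exact I.sub_mem hzI (I.mul_mem_left _ hx1I)) (by
          intro n hn
          rw [map_sub, map_sub, h1]
          by_cases hn' : n = n0
          · rw [hn', sub_self, map_mul, hx10, ← map_mul, hb _ hzL, sub_self]
          · rw [hz n (by push_cast; omega), map_mul, hx1top (n - n0) (by omega), mul_zero,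
              sub_zero])
      refine ⟨r + G.pr n0 z, ?_⟩
      rw [add_mul, map_add, ← hr, map_sub]
      abel
  obtain ⟨r, hr⟩ := claim (2 * G.d + 1) e (by
      have := hI' 1
      rwa [one_mul] at this) (by
    intro n hn
    rw [G.pr_out, map_zero]
    rw [Finset.mem_Icc]
    push_cast at hn
    omega)
  have hx1e : π x1 * π e = π x1 := hIe _ hx1I
  refine ⟨p, e * r * p, x1 * e, hpp, hπp, ?_, ?_, ?_, ?_, ?_, ?_⟩
  · -- `u v = e`
    calc π (e * r * p * (x1 * e)) = π e * π r * (π p * π x1) * π e := by
          simp only [map_mul, mul_assoc]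
      _ = π e * (π r * π x1) * π e := by
          rw [← map_mul π p x1, hpx1]
          simp only [mul_assoc]
      _ = π e := by rw [← map_mul π r x1, ← hr, hπe, hπe]
  · -- `v u = p`
    have hvu : π (x1 * e * (e * r * p)) = π (x1 * r * p) := by
      calc π (x1 * e * (e * r * p)) = π x1 * π e * π e * π r * π p := by
            simp only [map_mul, mul_assoc]
        _ = _ := by rw [hx1e, hx1e]; simp only [map_mul]
    rw [hvu]
    set w := x1 * r * p - p with hw
    have hwx : π (w * x1) = 0 := by
      rw [hw, sub_mul, map_sub, hpx1]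
      have h1 : π (x1 * r * p * x1) = π x1 * (π r * (π p * π x1)) := by
        simp only [map_mul, mul_assoc]
      rw [h1, ← map_mul π p, hpx1, ← map_mul π r, ← hr, hx1e, sub_self]
    have hwp : π (w * p - w) = 0 := by
      have h1 : π (x1 * r * p * p) = π x1 * π r * π (p * p) := by
        simp only [map_mul, mul_assoc]
      rw [hw, sub_mul, map_sub, map_sub, map_sub, h1, hπp]
      simp only [map_mul]
      abel
    have hwn : ∀ m : ℕ, ∀ n : ℤ, (G.d : ℤ) - m < n → π (G.pr n w) = 0 := by
      intro m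
      induction m with
      | zero =>
        intro n hn
        rw [G.pr_out, map_zero]
        rw [Finset.mem_Icc]
        push_cast at hn
        omega
      | succ m ih =>
        intro n hn
        by_cases hn' : (G.d : ℤ) - m < n
        · exact ih n hn'
        have hn2 : n = (G.d : ℤ) - m := by push_cast at hn; omega
        have h1 := (G.lead π (a := n) (b := 0) (x := w) (y := x1)
          (fun i hi => ih i (by omega)) hx1top).2
        rw [add_zero, hker _ hwx, hx10] at h1
        have h2 := hker _ hwp n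
        have h3 := G.pr_mul_right n 0 w p hpp
        rw [add_zero] at h3
        rw [map_sub, h3, map_sub, sub_eq_zero] at h2
        rw [← h2, map_mul, ← h1]
    have h0 : π w = 0 := by
      apply G.map_eq_zero_of π
      intro i
      by_cases hi : i ∈ Finset.Icc (-(G.d : ℤ)) G.d
      · rw [Finset.mem_Icc] at hi
        exact hwn (2 * G.d + 1) i (by push_cast; omega)
      · rw [G.pr_out hi, map_zero]
    rw [hw, map_sub, sub_eq_zero] at h0
    exact h0
  · rw [mul_assoc, map_mul, hπp, ← map_mul]
  · rw [← mul_assoc, map_mul, hpx1, ← map_mul]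
  · rw [← mul_assoc, ← mul_assoc, he]
  · rw [mul_assoc, he]

end BGr

end Pool.Agent.Y121.NK
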