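import Pool.Agent.Y121.NK.Hom

/-!
# The sign conjecture for noncommutative motives of geometric origin
-/

open CategoryTheory AlgebraicGeometry

universe u v w

namespace Pool.Agent.Y121.NK

open Pool.Agent.H914 Pool.Agent.H914.VarClass Pool.Agent.H914.VarClass.Obj Pool.Agent.W492.BB
  Pool.Agent.W550.Corr Pool.Agent.TH133 Pool.Agent.TH829.Prime Pool.Agent.TH829.Kim

set_option linter.unusedSectionVars false

variable {k : Type u} [Field k] {𝒱 : VarClass k}

lemma hdeg_iff {C : TheoryData.{u, v, 0} 𝒱 ℚ} [hC : IsChowProj C] {X : 𝒱.Obj} {x : Cor C X} :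
    (grading C X).pr 0 x = x ↔ C.Deg X.dim (cA C X x) := by
  rw [grading_pr, prC_iff, add_zero]

section weil

variable {C : TheoryData.{u, v, 0} 𝒱 ℚ} [hC : IsChowProj C] {K : Type w} [Field K]
  (H : WeilTheoryData.{u, v, w} C K) [hH : IsWeilProj H] {X Y Z W : 𝒱.Obj}

include hC hH

/-- The component of degree zero of a lift of the even part of a homogeneous correspondence. -/
lemma evenPart_pr {e π : Cor C X} (he : (grading C X).pr 0 e = e)
    (h : ActsAsEvenPart H (cA C X e) (cA C X π)) :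
    ActsAsEvenPart H (cA C X e) (cA C X ((grading C X).pr 0 π)) := by
  rw [actsAsEvenPart_iff] at h ⊢
  apply ext_gr H
  intro i a ha
  rw [← cmpH_act H π 0 ha, h, LinearMap.comp_apply]
  rcases Int.even_or_odd i with h1 | h1
  · rw [evP_even H ha h1]
    have h2 := cmpH_act H e 0 ha
    rw [he] at h2
    exact h2
  · rw [evP_odd H ha h1, map_zero, map_zero]

/-- The noncommutative motives satisfying the sign conjecture have homogeneous models. -/
theorem good_of_signNC (hcomm : GradedComm H) (hne : ∀ X : 𝒱.Obj, (1 : C.A X) ≠ 0)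
    [FiniteDimensional K (H.A X)] {e π : Cor C X} (he : e * e - e ∈ homI H X)
    (h : actH C X H π = actH C X H e ∘ₗ evP H X) :
    Good (trH H hne X) (Ideal.Quotient.mk (homI H X) e) := by
  rw [← actH_eq_iff, map_mul] at he
  have hee : actH C X H e ∘ₗ actH C X H e = actH C X H e := he
  have g1 : Good (trH H hne X) (Ideal.Quotient.mk (homI H X) π) := by
    refine good_of_sign H hne hcomm (s := 1) one_ne_zero ?_ ?_
    · rw [← actH_eq_iff, map_mul, h]
      change (actH C X H e ∘ₗ evP H X) ∘ₗ (actH C X H e ∘ₗ evP H X) = _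
      calc (actH C X H e ∘ₗ evP H X) ∘ₗ (actH C X H e ∘ₗ evP H X) =
          actH C X H e ∘ₗ (evP H X ∘ₗ actH C X H e) ∘ₗ evP H X := rfl
        _ = (actH C X H e ∘ₗ actH C X H e) ∘ₗ (evP H X ∘ₗ evP H X) := by
            rw [evP_act]; rfl
        _ = _ := by rw [hee, evP_evP]
    · rw [h, one_smul, ← LinearMap.comp_assoc, sgn_act, LinearMap.comp_assoc, sgn_evP]
  have g2 : Good (trH H hne X) (Ideal.Quotient.mk (homI H X) (e - π)) := by
    have h' : actH C X H (e - π) = actH C X H e ∘ₗ (LinearMap.id - evP H X) := by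
      rw [map_sub, h, LinearMap.comp_sub, LinearMap.comp_id]
    have hpp : (LinearMap.id - evP H X) ∘ₗ (LinearMap.id - evP H X) =
        (LinearMap.id - evP H X) := by
      rw [LinearMap.comp_sub, LinearMap.sub_comp, LinearMap.sub_comp, evP_evP, LinearMap.comp_id,
        LinearMap.comp_id, LinearMap.id_comp, sub_self, sub_zero]
    have hcm : (LinearMap.id - evP H X) ∘ₗ actH C X H e =
        actH C X H e ∘ₗ (LinearMap.id - evP H X) := by
      rw [LinearMap.sub_comp, LinearMap.comp_sub, evP_act, LinearMap.comp_id, LinearMap.id_comp]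
    refine good_of_sign H hne hcomm (s := -1) (by norm_num) ?_ ?_
    · rw [← actH_eq_iff, map_mul, h']
      calc (actH C X H e ∘ₗ (LinearMap.id - evP H X)) ∘ₗ
            (actH C X H e ∘ₗ (LinearMap.id - evP H X)) =
          actH C X H e ∘ₗ ((LinearMap.id - evP H X) ∘ₗ actH C X H e) ∘ₗ
            (LinearMap.id - evP H X) := rfl
        _ = (actH C X H e ∘ₗ actH C X H e) ∘ₗ ((LinearMap.id - evP H X) ∘ₗ
            (LinearMap.id - evP H X)) := by rw [hcm]; rfl
        _ = _ := by rw [hee, hpp]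
    · rw [h', ← LinearMap.comp_assoc, sgn_act, LinearMap.comp_assoc, sgn_odP, LinearMap.comp_neg]
      apply LinearMap.ext
      intro a
      rw [LinearMap.smul_apply, LinearMap.neg_apply, neg_smul, one_smul]
  have h3 := g1.add g2
  rwa [← map_add, add_sub_cancel] at h3

/-- Transport of the even part along isomorphisms. -/
lemma transport {e p u v π : Cor C X} (huv : actH C X H u * actH C X H v = actH C X H p)
    (hvu : actH C X H v * actH C X H u = actH C X H e)
    (hp : actH C X H p * actH C X H p = actH C X H p)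
    (h : actH C X H π = actH C X H e ∘ₗ evP H X) :
    actH C X H (u * π * v) = actH C X H p ∘ₗ evP H X := by
  have h1 : actH C X H (u * π * v) =
      actH C X H u ∘ₗ (actH C X H e ∘ₗ (evP H X ∘ₗ actH C X H v)) := by
    rw [map_mul, map_mul, h]
    rfl
  rw [h1, evP_act]
  have h2 : actH C X H u ∘ₗ (actH C X H e ∘ₗ (actH C X H v ∘ₗ evP H X)) =
      (actH C X H u * actH C X H e * actH C X H v) ∘ₗ evP H X := rfl
  have h3 : actH C X H u * actH C X H e * actH C X H v = actH C X H p := by
    rw [← hvu, ← mul_assoc, huv, mul_assoc, huv, hp]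
  rw [h2, h3]

/-- The main theorem on the sign conjecture, in terms of the ring of self-correspondences. -/
theorem sign_main' (hcomm : GradedComm H) (X : 𝒱.Obj) [FiniteDimensional K (H.A X)]
    [FiniteDimensional K (H.A (X.prod X))] (e : Cor C X) (he : e * e - e ∈ homI H X) :
    SignNC H (cA C X e) ↔ ∃ p u v : Cor C X, (grading C X).pr 0 p = p ∧ p * p - p ∈ homI H X ∧
      u * v - e ∈ homI H X ∧ v * u - p ∈ homI H X ∧ ((grading C X).pr 0 e = e → p = e) ∧
      SignChow H (cA C X p) := by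
  have hne : ∀ X : 𝒱.Obj, (1 : C.A X) ≠ 0 := one_ne H
  constructor
  · rintro ⟨π, hπ⟩
    obtain ⟨π', hπe⟩ : ∃ π' : Cor C X, cA C X π' = π := ⟨π, rfl⟩
    subst hπe
    by_cases hd : (grading C X).pr 0 e = e
    · refine ⟨e, e, e, hd, he, he, he, fun _ => rfl, ?_⟩
      refine ⟨cA C X ((grading C X).pr 0 π'), ?_, evenPart_pr H hd hπ⟩
      rw [← hdeg_iff]
      exact (grading C X).pr_self 0 _
    · have hπ'' := (actsAsEvenPart_iff H).1 hπ
      have hg := good_of_signNC H hcomm hne he hπ''
      obtain ⟨p, u, v, h1, h2, h3, h4⟩ := exists_model H hne X he hg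
      refine ⟨p, u, v, h1, h2, h3, h4, fun h => absurd h hd, ?_⟩
      rw [← actH_eq_iff, map_mul] at h2 h3 h4
      have h5 := transport H (e := e) (p := p) (u := v) (v := u) (π := π') h4 h3 h2 hπ''
      refine ⟨cA C X ((grading C X).pr 0 (v * π' * u)), ?_, evenPart_pr H h1
        ((actsAsEvenPart_iff H).2 h5)⟩
      rw [← hdeg_iff]
      exact (grading C X).pr_self 0 _
  · rintro ⟨p, u, v, h1, h2, h3, h4, -, ⟨π, -, hπ⟩⟩
    obtain ⟨π', hπe⟩ : ∃ π' : Cor C X, cA C X π' = π := ⟨π, rfl⟩
    subst hπe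
    have hπ'' := (actsAsEvenPart_iff H).1 hπ
    rw [← actH_eq_iff, map_mul] at h2 h3 h4 he
    have h5 := transport H (e := p) (p := e) (u := u) (v := v) (π := π') h3 h4 he hπ''
    exact ⟨_, (actsAsEvenPart_iff H).2 h5⟩

/-- The main theorem on the sign conjecture. -/
theorem sign_main (hcomm : GradedComm H) (X : 𝒱.Obj) [FiniteDimensional K (H.A X)]
    [FiniteDimensional K (H.A (X.prod X))] (e : C.A (X.prod X)) (he : HomEq H (C.comp e e) e) :
    SignNC H e ↔ ∃ p u v : C.A (X.prod X), C.Deg X.dim p ∧ HomEq H (C.comp p p) p ∧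
      HomEq H (C.comp u v) e ∧ HomEq H (C.comp v u) p ∧ (C.Deg X.dim e → p = e) ∧
      SignChow H p := by
  have hmul : ∀ a b c : Cor C X, HomEq H (C.comp (cA C X b) (cA C X a)) (cA C X c) ↔
      a * b - c ∈ homI H X := fun a b c => by
    rw [← cA_mul]
    exact homEq_iff H
  have he' := (hmul e e e).1 he
  have key := sign_main' H hcomm X (show Cor C X from e) he'
  constructor
  · intro h
    obtain ⟨p, u, v, h1, h2, h3, h4, h5, h6⟩ := key.1 h
    exact ⟨p, v, u, hdeg_iff.1 h1, (hmul p p p).2 h2, (hmul u v e).2 h3, (hmul v u p).2 h4,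
      fun h => h5 (hdeg_iff.2 h), h6⟩
  · rintro ⟨p, v, u, h1, h2, h3, h4, h5, h6⟩
    exact key.2 ⟨p, u, v, hdeg_iff.2 h1, (hmul p p p).1 h2, (hmul u v e).1 h3, (hmul v u p).1 h4,
      fun h => h5 (hdeg_iff.1 h), h6⟩

end weil

end Pool.Agent.Y121.NK
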