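import Pool.Agent.TH829.Kim.Defs

/-!
# Kimura-finiteness of noncommutative Chow motives given by self-correspondences
-/

open CategoryTheory AlgebraicGeometry

universe u v w

namespace Pool.Agent.Y121.NK

open Pool.Agent.H914 Pool.Agent.H914.VarClass Pool.Agent.H914.VarClass.Obj Pool.Agent.W492.BB
  Pool.Agent.W550.Corr Pool.Agent.TH133 Pool.Agent.TH829.Kim

variable {k : Type u} [Field k] {𝒱 : VarClass k}

/-- The noncommutative Chow motive `(X, e)` is Kimura-finite: the idempotent correspondence `e`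
(an element of `CH^*(X × X)_ℚ = K_0(X × X)_ℚ`, homogeneous or not) is the sum of two orthogonal
idempotents `e₁`, `e₂`, homogeneous or not, such that for some `n ≥ 1` the exterior power
`Λ^n (X, e₁)` is zero, and for some `n ≥ 1` the symmetric power `Sym^n (X, e₂)` is zero. -/
def IsNCKimura (C : TheoryData.{u, v, 0} 𝒱 ℚ) {X : 𝒱.Obj} (e : C.A (X.prod X)) : Prop :=
  ∃ e₁ e₂ : C.A (X.prod X), C.comp e₁ e₁ = e₁ ∧ C.comp e₂ e₂ = e₂ ∧ C.comp e₁ e₂ = 0 ∧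
    C.comp e₂ e₁ = 0 ∧ e₁ + e₂ = e ∧
    (∃ n : ℕ, 1 ≤ n ∧ ∀ (W : 𝒱.Obj) (x y : Fin n → (W ⟶ X)), altPower C e₁ x y = 0) ∧
    (∃ n : ℕ, 1 ≤ n ∧ ∀ (W : 𝒱.Obj) (x y : Fin n → (W ⟶ X)), symPower C e₂ x y = 0)

/-- The Chow motive `(X, e)` is Kimura-finite: the correspondence `e ∈ CH^(dim X)(X × X)_ℚ` is the
sum of two orthogonal idempotents `e₁`, `e₂` of `CH^(dim X)(X × X)_ℚ`, such that for some `n ≥ 1`
the exterior power `Λ^n (X, e₁)` is zero, and for some `n ≥ 1` the symmetric power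
`Sym^n (X, e₂)` is zero. -/
def IsChowKimura (C : TheoryData.{u, v, 0} 𝒱 ℚ) {X : 𝒱.Obj} (e : C.A (X.prod X)) : Prop :=
  ∃ e₁ e₂ : C.A (X.prod X), C.Deg X.dim e₁ ∧ C.Deg X.dim e₂ ∧
    C.comp e₁ e₁ = e₁ ∧ C.comp e₂ e₂ = e₂ ∧ C.comp e₁ e₂ = 0 ∧
    C.comp e₂ e₁ = 0 ∧ e₁ + e₂ = e ∧
    (∃ n : ℕ, 1 ≤ n ∧ ∀ (W : 𝒱.Obj) (x y : Fin n → (W ⟶ X)), altPower C e₁ x y = 0) ∧
    (∃ n : ℕ, 1 ≤ n ∧ ∀ (W : 𝒱.Obj) (x y : Fin n → (W ⟶ X)), symPower C e₂ x y = 0)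

end Pool.Agent.Y121.NK
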