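import Pool.Agent.Y121.NK.Geo
import Pool.Agent.Y121.NK.Defs

/-!
# Kimura-finite noncommutative motives of geometric origin
-/

open CategoryTheory AlgebraicGeometry

universe u v w

namespace Pool.Agent.Y121.NK

open Pool.Agent.H914 Pool.Agent.H914.VarClass Pool.Agent.H914.VarClass.Obj Pool.Agent.W492.BB
  Pool.Agent.W550.Corr Pool.Agent.TH133 Pool.Agent.TH829.Prime Pool.Agent.TH829.Kim

set_option linter.unusedSectionVars false

variable {k : Type u} [Field k] {𝒱 : VarClass k}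

lemma eta_ne (s : Bool) : eta s ≠ 0 := by
  unfold eta
  split_ifs <;> norm_num

section weil

variable {C : TheoryData.{u, v, 0} 𝒱 ℚ} [hC : IsChowProj C] {K : Type w} [Field K]
  (H : WeilTheoryData.{u, v, w} C K) [hH : IsWeilProj H] {X Y Z W : 𝒱.Obj}

include hC hH

lemma one_ne (X : 𝒱.Obj) : (1 : C.A X) ≠ 0 := by
  intro h
  apply hH.one_ne_zero X
  rw [← map_one H.cl, h, map_zero]

lemma cl_smul_one_ne {q : ℚ} (hq : q ≠ 0) : H.cl (q • (1 : C.A X)) ≠ 0 := by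
  intro h
  apply hH.one_ne_zero X
  have h1 : (1 : C.A X) = (q⁻¹ • (1 : C.A X)) * (q • (1 : C.A X)) := by
    rw [smul_mul_smul_comm, one_mul, inv_mul_cancel₀ hq, one_smul]
  rw [← map_one H.cl, h1, map_mul, h, mul_zero]

/-- The trace form has finite rank. -/
lemma exists_finite (hne : ∀ X : 𝒱.Obj, (1 : C.A X) ≠ 0) (X : 𝒱.Obj)
    [FiniteDimensional K (H.A (X.prod X))] :
    ∃ (n : ℕ) (f : Cor C X →ₗ[ℚ] (Fin n → ℚ)), ∀ x, f x = 0 → InRad (trA hne X) x := by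
  obtain ⟨b, hb, hspan, hli⟩ := exists_linearIndependent K
    (Set.range fun y : Cor C X => H.cl (cA C X y))
  have hbfin : b.Finite := hli.setFinite
  obtain ⟨n, g, -, hg⟩ := hbfin.fin_param
  have h1 : ∀ i, ∃ y : Cor C X, H.cl (cA C X y) = g i := by
    intro i
    have h2 : g i ∈ b := hg ▸ Set.mem_range_self i
    exact hb h2
  choose y hy using h1
  refine ⟨n, LinearMap.pi fun i => (trA hne X) ∘ₗ LinearMap.mulRight ℚ (y i), ?_⟩
  intro x hx γ
  -- the bilinear form in terms of the cohomology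
  let Φ : H.A (X.prod X) →ₗ[K] H.A (X.prod X) :=
    H.push (snd (X.prod X) (X.prod X)) ∘ₗ (H.pull (fst (X.prod X) (X.prod X))).toLinearMap ∘ₗ
      LinearMap.mulRight K (H.cl (tp C (cA C X x)))
  have hΦ : ∀ z : Cor C X, Φ (H.cl (cA C X z)) =
      H.cl ((trA hne X (x * z)) • (1 : C.A (X.prod X))) := by
    intro z
    have h3 := (trA_mul (hne := hne) x z (X.prod X)).1
    rw [← h3, H.cl_push, H.cl_pull, map_mul]
    rfl
  have hker : ∀ w ∈ Submodule.span K (Set.range fun y : Cor C X => H.cl (cA C X y)), Φ w = 0 := by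
    rw [← hspan]
    intro w hw
    have h4 : Submodule.span K b ≤ LinearMap.ker Φ := by
      rw [Submodule.span_le]
      intro c hc
      rw [← hg] at hc
      obtain ⟨i, rfl⟩ := hc
      change Φ (g i) = 0
      rw [← hy i, hΦ]
      have h5 := congrFun hx i
      have h6 : trA hne X (x * y i) = 0 := h5
      rw [h6, zero_smul, map_zero]
    exact h4 hw
  by_contra hcon
  have h7 := hker (H.cl (cA C X γ)) (Submodule.subset_span ⟨γ, rfl⟩)
  rw [hΦ] at h7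
  exact cl_smul_one_ne H hcon h7

end weil

section chow

variable {C : TheoryData.{u, v, 0} 𝒱 ℚ} [hC : IsChowProj C] {X Y Z W V : 𝒱.Obj}

include hC

lemma dies_alt {n : ℕ} {e : Cor C X} : DiesA true e n ↔
    ∀ (W : 𝒱.Obj) (x y : Fin n → (W ⟶ X)), altPower C (cA C X e) x y = 0 := by
  constructor
  · intro h W x y
    rw [altPower_eq]
    exact h W x y
  · intro h W x y
    rw [← altPower_eq]
    exact h W x y

lemma dies_sym {n : ℕ} {e : Cor C X} : DiesA false e n ↔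
    ∀ (W : 𝒱.Obj) (x y : Fin n → (W ⟶ X)), symPower C (cA C X e) x y = 0 := by
  constructor
  · intro h W x y
    rw [symPower_eq]
    exact h W x y
  · intro h W x y
    rw [← symPower_eq]
    exact h W x y

/-- The definition in terms of the ring of self-correspondences. -/
lemma isNCKimura_iff {e : Cor C X} : IsNCKimura C (cA C X e) ↔ ∃ e₁ e₂ : Cor C X,
    e₁ * e₁ = e₁ ∧ e₂ * e₂ = e₂ ∧ e₁ * e₂ = 0 ∧ e₂ * e₁ = 0 ∧ e₁ + e₂ = e ∧
    (∃ n, DiesA true e₁ (n + 1)) ∧ ∃ n, DiesA false e₂ (n + 1) := by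
  constructor
  · rintro ⟨e₁, e₂, h1, h2, h3, h4, h5, ⟨n, hn, h6⟩, ⟨m, hm, h7⟩⟩
    obtain ⟨n, rfl⟩ := Nat.exists_eq_add_of_le' hn
    obtain ⟨m, rfl⟩ := Nat.exists_eq_add_of_le' hm
    exact ⟨e₁, e₂, h1, h2, h4, h3, h5, ⟨n, dies_alt.2 h6⟩, ⟨m, dies_sym.2 h7⟩⟩
  · rintro ⟨e₁, e₂, h1, h2, h3, h4, h5, ⟨n, h6⟩, ⟨m, h7⟩⟩
    exact ⟨e₁, e₂, h1, h2, h4, h3, h5, ⟨n + 1, by omega, dies_alt.1 h6⟩,
      ⟨m + 1, by omega, dies_sym.1 h7⟩⟩

lemma isChowKimura_iff {e : Cor C X} : IsChowKimura C (cA C X e) ↔ ∃ e₁ e₂ : Cor C X,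
    (grading C X).pr 0 e₁ = e₁ ∧ (grading C X).pr 0 e₂ = e₂ ∧
    e₁ * e₁ = e₁ ∧ e₂ * e₂ = e₂ ∧ e₁ * e₂ = 0 ∧ e₂ * e₁ = 0 ∧ e₁ + e₂ = e ∧
    (∃ n, DiesA true e₁ (n + 1)) ∧ ∃ n, DiesA false e₂ (n + 1) := by
  have hdeg : ∀ x : Cor C X, (grading C X).pr 0 x = x ↔ C.Deg X.dim (cA C X x) := by
    intro x
    rw [grading_pr, prC_iff, add_zero]
  constructor
  · rintro ⟨e₁, e₂, d1, d2, h1, h2, h3, h4, h5, ⟨n, hn, h6⟩, ⟨m, hm, h7⟩⟩
    obtain ⟨n, rfl⟩ := Nat.exists_eq_add_of_le' hn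
    obtain ⟨m, rfl⟩ := Nat.exists_eq_add_of_le' hm
    exact ⟨e₁, e₂, (hdeg e₁).2 d1, (hdeg e₂).2 d2, h1, h2, h4, h3, h5, ⟨n, dies_alt.2 h6⟩,
      ⟨m, dies_sym.2 h7⟩⟩
  · rintro ⟨e₁, e₂, d1, d2, h1, h2, h3, h4, h5, ⟨n, h6⟩, ⟨m, h7⟩⟩
    exact ⟨e₁, e₂, (hdeg e₁).1 d1, (hdeg e₂).1 d2, h1, h2, h4, h3, h5,
      ⟨n + 1, by omega, dies_alt.1 h6⟩, ⟨m + 1, by omega, dies_sym.1 h7⟩⟩

lemma IsChowKimura.isNCKimura {e : C.A (X.prod X)} (h : IsChowKimura C e) : IsNCKimura C e := by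
  obtain ⟨e₁, e₂, -, -, h'⟩ := h
  exact ⟨e₁, e₂, h'⟩

/-- The homogeneous case. -/
theorem chow_of_nc (hne : ∀ X : 𝒱.Obj, (1 : C.A X) ≠ 0) {e : Cor C X}
    (he : (grading C X).pr 0 e = e) (h : IsNCKimura C (cA C X e)) :
    IsChowKimura C (cA C X e) := by
  obtain ⟨e₁, e₂, h1, h2, h3, h4, h5, ⟨n, h6⟩, ⟨m, h7⟩⟩ := isNCKimura_iff.1 h
  obtain ⟨f1, f2, w, w', k1, k2, k3, k4, k5, k6, k7, k8, k9⟩ :=
    (grading C X).exists_homogeneous_decomposition (tr := trA hne X)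
      (fun j x hj => trA_pr j x hj) (fun a b => trA_comm a b) he h1 h2 h3 h4 h5
      (h6.killed (hne := hne)) (h7.killed (hne := hne))
  refine isChowKimura_iff.2 ⟨f1, f2, k1, k2, k3, k4, k5, k6, k7, ⟨n, ?_⟩, ⟨m, ?_⟩⟩
  · rw [k8]
    exact h6.mul_mul w' w
  · rw [k9]
    exact h7.mul_mul w' w

/-- Kimura-finiteness of noncommutative motives is invariant under isomorphisms. -/
theorem isNCKimura_iso {e p u v : Cor C X} (huv : u * v = e) (hvu : v * u = p)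
    (hp : p * p = p) (h : IsNCKimura C (cA C X e)) : IsNCKimura C (cA C X p) := by
  obtain ⟨e₁, e₂, h1, h2, h3, h4, h5, ⟨n, h6⟩, ⟨m, h7⟩⟩ := isNCKimura_iff.1 h
  have hee1 : e * e₁ = e₁ := by rw [← h5, add_mul, h1, h4, add_zero]
  have hee2 : e * e₂ = e₂ := by rw [← h5, add_mul, h2, h3, zero_add]
  have key : ∀ a b : Cor C X, e * b = b → (v * a * u) * (v * b * u) = v * (a * b) * u := by
    intro a b hb
    calc (v * a * u) * (v * b * u) = v * a * ((u * v) * b) * u := by simp only [mul_assoc]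
      _ = v * (a * b) * u := by rw [huv, hb]; simp only [mul_assoc]
  refine isNCKimura_iff.2 ⟨v * e₁ * u, v * e₂ * u, ?_, ?_, ?_, ?_, ?_, ⟨n, h6.mul_mul v u⟩,
    ⟨m, h7.mul_mul v u⟩⟩
  · rw [key _ _ hee1, h1]
  · rw [key _ _ hee2, h2]
  · rw [key _ _ hee2, h3, mul_zero, zero_mul]
  · rw [key _ _ hee1, h4, mul_zero, zero_mul]
  · rw [← add_mul, ← mul_add, h5, ← huv]
    calc v * (u * v) * u = (v * u) * (v * u) := by simp only [mul_assoc]
      _ = p := by rw [hvu, hp]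

lemma isChowKimura_dg_iff : IsChowKimura C (dg C X) ↔ IsKimuraFinite C (ratFam C) X := by
  rw [← cA_one, isChowKimura_iff, isKimuraFinite_iff]
  constructor
  · rintro ⟨e₁, e₂, d1, d2, h1, h2, h3, h4, h5, ⟨n, h6⟩, ⟨m, h7⟩⟩
    have hd1 : e₁ ∈ cor0 C X := by
      rw [mem_cor0]
      have := prC_iff.1 d1
      rwa [add_zero] at this
    refine ⟨⟨e₁, hd1⟩, ?_, ⟨n, ?_⟩, ⟨m, ?_⟩⟩
    · have h8 : (⟨e₁, hd1⟩ : R0 C X) * ⟨e₁, hd1⟩ = ⟨e₁, hd1⟩ := Subtype.ext h1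
      rw [h8, sub_self, map_zero]
      exact Submodule.zero_mem _
    · intro W x y
      exact (Submodule.mem_bot ℚ).2 (h6 W x y)
    · have h8 : toA (1 - ⟨e₁, hd1⟩ : R0 C X) = cA C X e₂ := by
        have h9 : e₂ = 1 - e₁ := by rw [← h5]; abel
        rw [h9]
        rfl
      intro W x y
      rw [h8]
      exact (Submodule.mem_bot ℚ).2 (h7 W x y)
  · rintro ⟨e, h1, ⟨n, h2⟩, ⟨m, h3⟩⟩
    have h1' : (e : Cor C X) * e = e := by
      have h4 : toA (e * e - e) = 0 := (Submodule.mem_bot ℚ).1 h1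
      have h5 : e * e - e = 0 := toA_inj (by rw [h4, map_zero])
      exact congrArg Subtype.val (sub_eq_zero.1 h5)
    have hd : ∀ x : R0 C X, (grading C X).pr 0 (x : Cor C X) = x := by
      intro x
      rw [grading_pr]
      apply prC_iff.2
      rw [add_zero]
      exact toA_mem x
    refine ⟨e, ((1 - e : R0 C X) : Cor C X), hd e, hd (1 - e), h1', ?_, ?_, ?_, ?_, ⟨n, ?_⟩,
      ⟨m, ?_⟩⟩
    · change ((1 : Cor C X) - e) * (1 - e) = 1 - e
      simp only [mul_sub, sub_mul, one_mul, mul_one, h1']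
      abel
    · change (e : Cor C X) * (1 - e) = 0
      rw [mul_sub, h1', mul_one, sub_self]
    · change ((1 : Cor C X) - e) * e = 0
      rw [sub_mul, h1', one_mul, sub_self]
    · change (e : Cor C X) + (1 - e) = 1
      abel
    · intro W x y
      exact (Submodule.mem_bot ℚ).1 (h2 W x y)
    · intro W x y
      exact (Submodule.mem_bot ℚ).1 (h3 W x y)

end chow

section weil

variable {C : TheoryData.{u, v, 0} 𝒱 ℚ} [hC : IsChowProj C] {K : Type w} [Field K]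
  (H : WeilTheoryData.{u, v, w} C K) [hH : IsWeilProj H] {X Y Z W : 𝒱.Obj}

include hC hH

/-- Kimura-finite noncommutative motives of geometric origin are Chow motives. -/
theorem exists_chow_of_nc [FiniteDimensional K (H.A (X.prod X))] {e : Cor C X} (he : e * e = e)
    (h : IsNCKimura C (cA C X e)) : ∃ p u v : Cor C X, (grading C X).pr 0 p = p ∧ p * p = p ∧
      u * v = e ∧ v * u = p ∧ IsChowKimura C (cA C X p) := by
  have hne : ∀ X : 𝒱.Obj, (1 : C.A X) ≠ 0 := one_ne H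
  obtain ⟨e₁, e₂, h1, h2, h3, h4, h5, ⟨n, h6⟩, ⟨m, h7⟩⟩ := isNCKimura_iff.1 h
  have hg : Good (trA hne X) e := by
    rw [← h5]
    exact (Good.of_killed (fun a b => trA_comm a b) h1 (eta_ne true)
      (h6.killed (hne := hne))).add (Good.of_killed (fun a b => trA_comm a b) h2
        (eta_ne false) (h7.killed (hne := hne)))
  obtain ⟨p, u, v, k1, k2, k3, k4, -⟩ := (grading C X).exists_homogeneous_iso
    (tr := trA hne X) (fun j x hj => trA_pr j x hj) (fun a b => trA_comm a b)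
    (exists_finite H hne X) he hg
  exact ⟨p, u, v, k1, k2, k3, k4, chow_of_nc hne k1 (isNCKimura_iso k3 k4 k2 h)⟩

/-- The main theorem. -/
theorem main (X : 𝒱.Obj) [FiniteDimensional K (H.A (X.prod X))] (e : C.A (X.prod X))
    (he : C.comp e e = e) : IsNCKimura C e ↔
      ∃ p u v : C.A (X.prod X), C.Deg X.dim p ∧ C.comp p p = p ∧ C.comp u v = e ∧
        C.comp v u = p ∧ (C.Deg X.dim e → p = e) ∧ IsChowKimura C p := by
  have hne : ∀ X : 𝒱.Obj, (1 : C.A X) ≠ 0 := one_ne H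
  have hdeg : ∀ x : Cor C X, (grading C X).pr 0 x = x ↔ C.Deg X.dim (cA C X x) := by
    intro x
    rw [grading_pr, prC_iff, add_zero]
  constructor
  · intro h
    by_cases hd : C.Deg X.dim e
    · exact ⟨e, e, e, hd, he, he, he, fun _ => rfl,
        chow_of_nc hne (e := e) ((hdeg e).2 hd) h⟩
    · obtain ⟨p, u, v, k1, k2, k3, k4, k5⟩ := exists_chow_of_nc H (e := e) he h
      exact ⟨p, v, u, (hdeg p).1 k1, k2, k3, k4, fun h => absurd h hd, k5⟩
  · rintro ⟨p, u, v, k1, k2, k3, k4, -, k5⟩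
    exact isNCKimura_iso (e := p) (p := e) (u := u) (v := v) k4 k3 he k5.isNCKimura

end weil

end Pool.Agent.Y121.NK
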