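import Pool.Agent.TH829.Kim.Quot
import Pool.Agent.TH829.Kim.Main

/-!
# The ring of all self-correspondences (of all degrees) and its trace
-/

open CategoryTheory AlgebraicGeometry

universe u v w

namespace Pool.Agent.Y121.NK

open Pool.Agent.H914 Pool.Agent.H914.VarClass Pool.Agent.H914.VarClass.Obj Pool.Agent.W492.BB
  Pool.Agent.W550.Corr Pool.Agent.TH133 Pool.Agent.TH829.Prime Pool.Agent.TH829.Kim

set_option linter.unusedSectionVars false

variable {k : Type u} [Field k] {𝒱 : VarClass k}

section chow

variable {C : TheoryData.{u, v, 0} 𝒱 ℚ} [hC : IsChowProj C] {X Y Z W V : 𝒱.Obj}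

include hC

/-- Classes of codimension different from the dimension have degree zero. -/
lemma hasDegree_of_ne {x : C.A X} {i : ℤ} (hx : x ∈ C.gr X i) (hi : i ≠ X.dim) :
    HasDegree C x 0 := by
  rcases lt_or_gt_of_ne hi with h | h
  · intro Y
    constructor
    · have h2 := C.push_mem (snd X Y) (C.pull_mem (fst X Y) hx)
      rw [C.gr_neg Y _ (by rw [dim_prod]; push_cast; omega)] at h2
      rw [zero_smul]
      exact (Submodule.mem_bot _).1 h2
    · have h2 := C.push_mem (fst Y X) (C.pull_mem (snd Y X) hx)
      rw [C.gr_neg Y _ (by rw [dim_prod]; push_cast; omega)] at h2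
      rw [zero_smul]
      exact (Submodule.mem_bot _).1 h2
  · rw [hC.gr_top X i _ hx h]
    exact hasDegree_zero

lemma mem_iSup_gr (x : C.A X) : x ∈ ⨆ i, C.gr X i := by
  rw [(C.isInternal X).submodule_iSup_eq_top]; trivial

/-- Every class has a degree. -/
lemma exists_hasDegree' (x : C.A X) : ∃ q, HasDegree C x q := by
  induction mem_iSup_gr x using Submodule.iSup_induction' with
  | mem i x hx =>
    by_cases hi : i = X.dim
    · subst hi
      exact exists_hasDegree hx
    · exact ⟨0, hasDegree_of_ne hx hi⟩
  | zero => exact ⟨0, hasDegree_zero⟩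
  | add x y _ _ hx hy =>
    obtain ⟨q, hq⟩ := hx
    obtain ⟨r, hr⟩ := hy
    exact ⟨q + r, HasDegree.add hq hr⟩

variable (C X) in
omit hC in
/-- The class of a self-correspondence. -/
noncomputable def cA : Cor C X →ₗ[ℚ] C.A (X.prod X) :=
  { toFun := fun a => a
    map_add' := fun _ _ => rfl
    map_smul' := fun _ _ => rfl }

lemma cA_apply (a : Cor C X) : cA C X a = (show C.A (X.prod X) from a) := rfl

lemma cA_mul (a b : Cor C X) : cA C X (a * b) = C.comp (cA C X b) (cA C X a) := rfl

lemma cA_one : cA C X (1 : Cor C X) = dg C X := rfl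

lemma cA_inj {a b : Cor C X} (h : cA C X a = cA C X b) : a = b := h

/-- The trace of a self-correspondence: the degree of its restriction to the diagonal. -/
noncomputable def trA (hne : ∀ X : 𝒱.Obj, (1 : C.A X) ≠ 0) (X : 𝒱.Obj) : Cor C X →ₗ[ℚ] ℚ where
  toFun a := (exists_hasDegree' (ev (cA C X a) (𝟙 X) (𝟙 X))).choose
  map_add' a b := by
    apply hasDegree_uniq (hne X) (exists_hasDegree' (ev (cA C X (a + b)) (𝟙 X) (𝟙 X))).choose_spec
    have h := HasDegree.add (exists_hasDegree' (ev (cA C X a) (𝟙 X) (𝟙 X))).choose_spec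
      (exists_hasDegree' (ev (cA C X b) (𝟙 X) (𝟙 X))).choose_spec
    rw [← ev_add, ← map_add (cA C X)] at h
    exact h
  map_smul' r a := by
    apply hasDegree_uniq (hne X) (exists_hasDegree' (ev (cA C X (r • a)) (𝟙 X) (𝟙 X))).choose_spec
    have h := HasDegree.smul r (exists_hasDegree' (ev (cA C X a) (𝟙 X) (𝟙 X))).choose_spec
    rw [← ev_smul, ← map_smul (cA C X)] at h
    exact h

variable {hne : ∀ X : 𝒱.Obj, (1 : C.A X) ≠ 0}

lemma trA_spec (a : Cor C X) : HasDegree C (ev (cA C X a) (𝟙 X) (𝟙 X)) (trA hne X a) :=
  (exists_hasDegree' (ev (cA C X a) (𝟙 X) (𝟙 X))).choose_spec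

/-- The trace of a composition as an intersection number. -/
lemma trA_mul (a b : Cor C X) :
    HasDegree C (cA C X b * tp C (cA C X a)) (trA hne X (a * b)) := by
  obtain ⟨q, hq⟩ := exists_hasDegree' (C := C) (X := X.prod X) (cA C X b * tp C (cA C X a))
  have h1 := hasDegree_push (fst X X) hq
  have h2 := trA_spec (hne := hne) (a * b)
  rw [cA_mul, ev_comp] at h2
  have e1 : ev (cA C X b) (fst X X ≫ 𝟙 X) (snd X X) = cA C X b := by
    rw [Category.comp_id, ev_univ]
  have e2 : ev (cA C X a) (snd X X) (fst X X ≫ 𝟙 X) = tp C (cA C X a) := by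
    rw [Category.comp_id]
    rfl
  rw [e1, e2] at h2
  rwa [hasDegree_uniq (hne X) h1 h2] at hq

lemma trA_comm (a b : Cor C X) : trA hne X (a * b) = trA hne X (b * a) := by
  apply hasDegree_uniq (hne X) (trA_mul (hne := hne) a b)
  have h := tp_hasDegree (trA_mul (hne := hne) b a)
  have e : tp C (cA C X a * tp C (cA C X b)) = cA C X b * tp C (cA C X a) := by
    rw [tp, map_mul, ch_comm C]
    congr 1
    change tp C (tp C (cA C X b)) = _
    rw [tp_tp]
  rwa [e] at h

/-- The trace of a homogeneous self-correspondence of degree different from zero vanishes. -/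
lemma trA_of_ne {a : Cor C X} {i : ℤ} (ha : cA C X a ∈ C.gr (X.prod X) i) (hi : i ≠ X.dim) :
    trA hne X a = 0 :=
  hasDegree_uniq (hne X) (trA_spec (hne := hne) a) (hasDegree_of_ne (ev_mem ha _ _) hi)

/-! ### The contractions -/

/-- The family of the determinants. -/
noncomputable def grA (s : Bool) {n : ℕ} (a : Fin n → Cor C X) : Fam C X n :=
  fun W x y => gr (W := W) s (fun i => cA C X (a i)) x y

lemma conL_grA (s : Bool) {n : ℕ} (a : Fin (n + 1) → Cor C X) :
    conL C X n (grA s a) = trA hne X (a 0) • grA s (fun i => a i.succ) +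
      eta s • ∑ i, grA s (Function.update (fun i => a i.succ) i (a 0 * a i.succ)) := by
  funext W x y
  have h := push_gr (W := W) s (fun i => cA C X (a i)) x y (trA_spec (hne := hne) (a 0))
  have h1 : ∀ i : Fin n, (fun j => cA C X (Function.update (fun i => a i.succ) i
      (a 0 * a i.succ) j)) = Function.update (fun i => cA C X (a i.succ)) i
        (C.comp (cA C X (a i.succ)) (cA C X (a 0))) := by
    intro i
    funext j
    by_cases hj : j = i
    · subst hj
      rw [Function.update_self, Function.update_self, cA_mul]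
    · rw [Function.update_of_ne hj, Function.update_of_ne hj]
  rw [Pi.add_apply, Pi.add_apply, Pi.add_apply, Pi.smul_apply, Pi.smul_apply, Pi.smul_apply,
    Pi.smul_apply, Pi.smul_apply, Pi.smul_apply, Finset.sum_apply, Finset.sum_apply,
    Finset.sum_apply]
  have h2 : ∀ i : Fin n, grA s (Function.update (fun i => a i.succ) i (a 0 * a i.succ)) W x y =
      gr s (Function.update (fun i => cA C X (a i.succ)) i
        (C.comp (cA C X (a i.succ)) (cA C X (a 0)))) x y := by
    intro i
    rw [← h1]
    rfl
  rw [Finset.sum_congr rfl (fun i _ => h2 i)]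
  exact h

/-- The family of the values of a correspondence, as a linear map. -/
noncomputable def evA : Cor C X →ₗ[ℚ] Fam C X 1 where
  toFun a := fun _ x y => ev (cA C X a) (x 0) (y 0)
  map_add' a b := by
    funext W x y
    exact map_add _ _ _
  map_smul' q a := by
    funext W x y
    exact map_smul _ _ _

/-- The contraction of all but one pair of points. -/
lemma iterL_grA (s : Bool) (n : ℕ) (a : Fin (n + 1) → Cor C X) :
    iterL C X n (grA s a) = evA (K (trA hne X) (eta s) n a) := by
  induction n with
  | zero =>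
    funext W x y
    exact gr_one s _ x y
  | succ n ih =>
    rw [iterL, LinearMap.comp_apply, conL_grA (hne := hne), map_add, map_smul, map_smul, map_sum,
      K_succ, map_add, map_smul, map_smul, map_sum, ih]
    congr 2
    exact Finset.sum_congr rfl (fun i _ => ih _)

/-- The contraction of all pairs of points. -/
lemma iterL0_grA (s : Bool) (n : ℕ) (a : Fin n → Cor C X) :
    iterL0 C X n (grA s a) = F (trA hne X) (eta s) n a • (fun _ _ _ => 1 : Fam C X 0) := by
  induction n with
  | zero =>
    rw [F, one_smul]
    funext W x y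
    exact gr_zero s _ x y
  | succ n ih =>
    rw [iterL0, LinearMap.comp_apply, conL_grA (hne := hne), map_add, map_smul, map_smul, map_sum,
      F_succ, ih, Finset.sum_congr rfl (fun i _ => ih _), add_smul, mul_smul, mul_smul,
      Finset.sum_smul]

/-! ### Vanishing of the symmetrizations -/

/-- The (anti)symmetrizations with `n` factors of the self-correspondence `f` vanish. -/
def DiesA (s : Bool) (f : Cor C X) (n : ℕ) : Prop :=
  ∀ (W : 𝒱.Obj) (x y : Fin n → (W ⟶ X)), gd s (fun _ _ => cA C X f) x y = 0

lemma DiesA.rows {s : Bool} {f : Cor C X} {n : ℕ} (h : DiesA s f n) (a : Fin n → Cor C X)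
    (W : 𝒱.Obj) (x y : Fin n → (W ⟶ X)) :
    gd s (fun i (_ : Fin n) => cA C X (f * a i)) x y = 0 := by
  have key : ∀ T : Finset (Fin n), ∀ (W : 𝒱.Obj) (x y : Fin n → (W ⟶ X)),
      gd s (fun i (_ : Fin n) => if i ∈ T then C.comp (cA C X (a i)) (cA C X f) else cA C X f)
        x y = 0 := by
    intro T
    induction T using Finset.induction_on with
    | empty =>
      intro W x y
      simpa using h W x y
    | insert i T hi ih =>
      intro W x y
      have h2 := gd_row (W := W) s (fun i (_ : Fin n) => if i ∈ T then
        C.comp (cA C X (a i)) (cA C X f) else cA C X f) i (cA C X (a i)) x y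
      rw [ih, mul_zero, map_zero] at h2
      rw [← h2]
      congr 1
      funext j l
      by_cases hj : j = i
      · subst hj
        rw [Function.update_self, if_pos (Finset.mem_insert_self _ _), if_neg hi]
      · rw [Function.update_of_ne hj]
        by_cases hjT : j ∈ T
        · rw [if_pos hjT, if_pos (Finset.mem_insert_of_mem hjT)]
        · rw [if_neg hjT, if_neg (by simp [hj, hjT])]
  have := key Finset.univ W x y
  simp only [Finset.mem_univ, if_true, ← cA_mul] at this
  exact this

lemma gdA_cols {s : Bool} {n : ℕ} {p : Fin n → Cor C X}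
    (h : ∀ (W : 𝒱.Obj) (x y : Fin n → (W ⟶ X)), gd s (fun i (_ : Fin n) => cA C X (p i)) x y = 0)
    (b : Cor C X) (W : 𝒱.Obj) (x y : Fin n → (W ⟶ X)) :
    gd s (fun i (_ : Fin n) => cA C X (b * p i)) x y = 0 := by
  have key : ∀ T : Finset (Fin n), ∀ (W : 𝒱.Obj) (x y : Fin n → (W ⟶ X)),
      gd s (fun i (j : Fin n) => if j ∈ T then C.comp (cA C X (p i)) (cA C X b) else
        cA C X (p i)) x y = 0 := by
    intro T
    induction T using Finset.induction_on with
    | empty =>
      intro W x y
      simpa using h W x y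
    | insert l T hl ih =>
      intro W x y
      have h2 := gd_col (W := W) s (fun i (j : Fin n) => if j ∈ T then
        C.comp (cA C X (p i)) (cA C X b) else cA C X (p i)) l (cA C X b) x y
      rw [ih, mul_zero, map_zero] at h2
      rw [← h2]
      congr 1
      funext i j
      by_cases hj : j = l
      · subst hj
        rw [if_pos (Finset.mem_insert_self _ _), if_pos rfl, if_neg hl]
      · rw [if_neg hj]
        by_cases hjT : j ∈ T
        · rw [if_pos hjT, if_pos (Finset.mem_insert_of_mem hjT)]
        · rw [if_neg hjT, if_neg (by simp [hj, hjT])]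
  have := key Finset.univ W x y
  simp only [Finset.mem_univ, if_true, ← cA_mul] at this
  exact this

/-- The condition is stable under composition with other correspondences. -/
lemma DiesA.mul_mul {s : Bool} {f : Cor C X} {n : ℕ} (h : DiesA s f n) (u v : Cor C X) :
    DiesA s (u * f * v) n := by
  intro W x y
  rw [mul_assoc]
  exact gdA_cols (p := fun _ => f * v) (h.rows (fun _ => v)) u W x y

lemma iterL_zero (n : ℕ) {G : Fam C X (n + 1)} (h : ∀ W x y, G W x y = 0) :
    ∀ W x y, iterL C X n G W x y = 0 := by
  have h0 : G = 0 := by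
    funext W x y
    exact h W x y
  intro W x y
  rw [h0, map_zero]
  rfl

/-- The vanishing of the (anti)symmetrizations of `f` implies the algebraic condition. -/
lemma DiesA.killed {s : Bool} {f : Cor C X} {n : ℕ}
    (h : DiesA s f (n + 1)) : Killed (trA hne X) (eta s) f n := by
  have key : ∀ a : Fin (n + 1) → Cor C X, (∀ i, f * a i = a i) → grA s a = 0 := by
    intro a ha
    funext W x y
    have h2 := h.rows a W x y
    simp only [ha] at h2
    exact h2
  constructor
  · intro a ha
    have h2 := iterL_grA (hne := hne) s n a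
    rw [key a ha, map_zero] at h2
    have h3 := congrFun (congrFun (congrFun h2 (X.prod X)) (fun _ => fst X X))
      (fun _ => snd X X)
    have h4 : evA (K (trA hne X) (eta s) n a) (X.prod X) (fun _ => fst X X) (fun _ => snd X X) =
        cA C X (K (trA hne X) (eta s) n a) := ev_univ _
    rw [h4] at h3
    exact cA_inj h3.symm
  · intro a ha
    have h2 := iterL0_grA (hne := hne) s (n + 1) a
    rw [key a ha, map_zero] at h2
    have h3 := congrFun (congrFun (congrFun h2 X) Fin.elim0) Fin.elim0
    by_contra hF
    have h4 : (F (trA hne X) (eta s) (n + 1) a) • (1 : C.A X) = 0 := h3.symm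
    rcases smul_eq_zero.1 h4 with h5 | h5
    · exact hF h5
    · exact hne X h5

end chow

end Pool.Agent.Y121.NK
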