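import Pool.Agent.Y121.NK.Lift
import Pool.Agent.Y121.NK.Trace

/-!
# The grading of the ring of self-correspondences
-/

open CategoryTheory AlgebraicGeometry

universe u v w

namespace Pool.Agent.Y121.NK

open Pool.Agent.H914 Pool.Agent.H914.VarClass Pool.Agent.H914.VarClass.Obj Pool.Agent.W492.BB
  Pool.Agent.W550.Corr Pool.Agent.TH133 Pool.Agent.TH829.Prime Pool.Agent.TH829.Kim

set_option linter.unusedSectionVars false

variable {k : Type u} [Field k] {𝒱 : VarClass k}

section chow

variable {C : TheoryData.{u, v, 0} 𝒱 ℚ} [hC : IsChowProj C] {X Y Z W V : 𝒱.Obj}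

include hC

variable (C) in
/-- The isomorphism with the direct sum of the graded pieces. -/
noncomputable def eqv (Y : 𝒱.Obj) : (DirectSum ℤ fun i => C.gr Y i) ≃ₗ[ℚ] C.A Y :=
  LinearEquiv.ofBijective (DirectSum.coeLinearMap (C.gr Y)) (C.isInternal Y)

variable (C) in
/-- The component of codimension `i`. -/
noncomputable def cmp (Y : 𝒱.Obj) (i : ℤ) : C.A Y →ₗ[ℚ] C.A Y :=
  (C.gr Y i).subtype ∘ₗ DirectSum.component ℚ ℤ (fun i => C.gr Y i) i ∘ₗ
    (eqv C Y).symm.toLinearMap

lemma eqv_symm_of_mem {i : ℤ} {x : C.A Y} (hx : x ∈ C.gr Y i) :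
    (eqv C Y).symm x = DirectSum.lof ℚ ℤ (fun i => C.gr Y i) i ⟨x, hx⟩ := by
  rw [LinearEquiv.symm_apply_eq]
  exact (DirectSum.coeLinearMap_lof (C.gr Y) i ⟨x, hx⟩).symm

lemma cmp_self {i : ℤ} {x : C.A Y} (hx : x ∈ C.gr Y i) : cmp C Y i x = x := by
  rw [cmp, LinearMap.comp_apply, LinearMap.comp_apply, LinearEquiv.coe_toLinearMap,
    eqv_symm_of_mem hx, DirectSum.component.lof_self]
  rfl

lemma cmp_ne {i j : ℤ} {x : C.A Y} (hx : x ∈ C.gr Y i) (hij : i ≠ j) : cmp C Y j x = 0 := by
  rw [cmp, LinearMap.comp_apply, LinearMap.comp_apply, LinearEquiv.coe_toLinearMap,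
    eqv_symm_of_mem hx, DirectSum.component.of, dif_neg hij]
  rfl

lemma cmp_mem (i : ℤ) (x : C.A Y) : cmp C Y i x ∈ C.gr Y i := Subtype.coe_prop _

/-- A linear map on all classes is determined by its values on homogeneous ones. -/
lemma ext_hom {M : Type*} [AddCommGroup M] [Module ℚ M] {f g : C.A Y →ₗ[ℚ] M}
    (h : ∀ i : ℤ, 0 ≤ i → i ≤ Y.dim → ∀ x ∈ C.gr Y i, f x = g x) : f = g := by
  apply LinearMap.ext
  intro x
  induction mem_iSup_gr x using Submodule.iSup_induction' with
  | mem i x hx =>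
    by_cases h0 : 0 ≤ i
    · by_cases h1 : i ≤ Y.dim
      · exact h i h0 h1 x hx
      · rw [hC.gr_top Y i x hx (by omega), map_zero, map_zero]
    · rw [C.gr_neg Y i (by omega), Submodule.mem_bot] at hx
      rw [hx, map_zero, map_zero]
  | zero => rw [map_zero, map_zero]
  | add x y _ _ hx hy => rw [map_add, map_add, hx, hy]

lemma sum_cmp (x : C.A Y) : ∑ i ∈ Finset.Icc (0 : ℤ) Y.dim, cmp C Y i x = x := by
  have h : (∑ i ∈ Finset.Icc (0 : ℤ) Y.dim, cmp C Y i) = LinearMap.id := by
    apply ext_hom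
    intro i h0 h1 x hx
    rw [LinearMap.sum_apply, Finset.sum_eq_single_of_mem i (Finset.mem_Icc.2 ⟨h0, h1⟩),
      cmp_self hx, LinearMap.id_apply]
    intro j _ hj
    exact cmp_ne hx hj.symm
  have h2 := LinearMap.congr_fun h x
  rwa [LinearMap.sum_apply] at h2

lemma cmp_out {i : ℤ} (hi : i ∉ Finset.Icc (0 : ℤ) Y.dim) (x : C.A Y) : cmp C Y i x = 0 := by
  rw [Finset.mem_Icc] at hi
  have h := cmp_mem (C := C) (Y := Y) i x
  by_cases h0 : 0 ≤ i
  · exact hC.gr_top Y i _ h (by
      by_contra h1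
      exact hi ⟨h0, by omega⟩)
  · rw [C.gr_neg Y i (by omega), Submodule.mem_bot] at h
    exact h

variable (C X) in
/-- The component of degree `j` of a self-correspondence. -/
noncomputable def prC (j : ℤ) : Cor C X →ₗ[ℚ] Cor C X :=
  (show C.A (X.prod X) →ₗ[ℚ] C.A (X.prod X) from cmp C (X.prod X) (X.dim + j))

lemma cA_prC (j : ℤ) (x : Cor C X) :
    cA C X (prC C X j x) = cmp C (X.prod X) (X.dim + j) (cA C X x) := rfl

lemma prC_iff {j : ℤ} {x : Cor C X} : prC C X j x = x ↔
    cA C X x ∈ C.gr (X.prod X) (X.dim + j) := by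
  constructor
  · intro h
    rw [← h, cA_prC]
    exact cmp_mem _ _
  · intro h
    apply cA_inj
    rw [cA_prC, cmp_self h]

lemma mul_mem_gr {i j : ℤ} {x y : Cor C X} (hx : cA C X x ∈ C.gr (X.prod X) (X.dim + i))
    (hy : cA C X y ∈ C.gr (X.prod X) (X.dim + j)) :
    cA C X (x * y) ∈ C.gr (X.prod X) (X.dim + (i + j)) := by
  rw [cA_mul, add_comm i j]
  exact comp_mem C hy hx

/-- Linear maps on the ring of self-correspondences agreeing on homogeneous elements agree. -/
lemma ext_cor {M : Type*} [AddCommGroup M] [Module ℚ M] {f g : Cor C X →ₗ[ℚ] M}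
    (h : ∀ j : ℤ, ∀ x : Cor C X, cA C X x ∈ C.gr (X.prod X) (X.dim + j) → f x = g x) : f = g := by
  have h1 : (show C.A (X.prod X) →ₗ[ℚ] M from f) = (show C.A (X.prod X) →ₗ[ℚ] M from g) := by
    apply ext_hom
    intro i _ _ x hx
    exact h (i - X.dim) x (by
      rw [add_sub_cancel]
      exact hx)
  exact h1

variable (C X) in
/-- The grading of the ring of self-correspondences. -/
noncomputable def grading : BGr (Cor C X) where
  d := X.dim
  pr := prC C X
  pr_self i x := prC_iff.2 (by
    rw [cA_prC]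
    exact cmp_mem _ _)
  pr_ne i j x hij := by
    apply cA_inj
    rw [cA_prC, map_zero]
    exact cmp_ne (i := X.dim + j) (by
      rw [cA_prC]
      exact cmp_mem _ _) (by omega)
  sum_pr x := by
    apply cA_inj
    rw [map_sum]
    have h : ∑ j ∈ Finset.Icc (-(X.dim : ℤ)) X.dim, cA C X (prC C X j x) =
        ∑ i ∈ Finset.Icc (0 : ℤ) (X.prod X).dim, cmp C (X.prod X) i (cA C X x) := by
      apply Finset.sum_nbij' (fun j => (X.dim : ℤ) + j) (fun i => i - X.dim)
      · intro j hj
        rw [Finset.mem_Icc] at hj ⊢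
        rw [dim_prod]
        push_cast
        omega
      · intro j hj
        rw [Finset.mem_Icc] at hj ⊢
        rw [dim_prod] at hj
        push_cast at hj
        omega
      · intro j _
        omega
      · intro j _
        omega
      · intro j _
        rw [cA_prC]
    rw [h, sum_cmp]
  pr_one := by
    apply prC_iff.2
    rw [cA_one, add_zero]
    exact dg_mem C X
  pr_mul_left i j x y hx := by
    have hx' := prC_iff.1 hx
    have h : (prC C X (i + j)) ∘ₗ LinearMap.mulLeft ℚ x = LinearMap.mulLeft ℚ x ∘ₗ prC C X j := by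
      apply ext_cor
      intro l z hz
      rw [LinearMap.comp_apply, LinearMap.comp_apply, LinearMap.mulLeft_apply,
        LinearMap.mulLeft_apply]
      have h1 := mul_mem_gr hx' hz
      by_cases hl : l = j
      · subst hl
        rw [prC_iff.2 h1, prC_iff.2 hz]
      · have h2 : prC C X j z = 0 := cA_inj (by
          rw [cA_prC, map_zero]
          exact cmp_ne hz (by omega))
        have h3 : prC C X (i + j) (x * z) = 0 := cA_inj (by
          rw [cA_prC, map_zero]
          exact cmp_ne h1 (by omega))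
        rw [h2, h3, mul_zero]
    exact LinearMap.congr_fun h y
  pr_mul_right i j x y hy := by
    have hy' := prC_iff.1 hy
    have h : (prC C X (i + j)) ∘ₗ LinearMap.mulRight ℚ y =
        LinearMap.mulRight ℚ y ∘ₗ prC C X i := by
      apply ext_cor
      intro l z hz
      rw [LinearMap.comp_apply, LinearMap.comp_apply, LinearMap.mulRight_apply,
        LinearMap.mulRight_apply]
      have h1 := mul_mem_gr hz hy'
      by_cases hl : l = i
      · subst hl
        rw [prC_iff.2 h1, prC_iff.2 hz]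
      · have h2 : prC C X i z = 0 := cA_inj (by
          rw [cA_prC, map_zero]
          exact cmp_ne hz (by omega))
        have h3 : prC C X (i + j) (z * y) = 0 := cA_inj (by
          rw [cA_prC, map_zero]
          exact cmp_ne h1 (by omega))
        rw [h2, h3, zero_mul]
    exact LinearMap.congr_fun h x

lemma grading_pr (j : ℤ) : (grading C X).pr j = prC C X j := rfl

variable {hne : ∀ X : 𝒱.Obj, (1 : C.A X) ≠ 0}

lemma trA_pr (j : ℤ) (x : Cor C X) (hj : j ≠ 0) :
    trA hne X ((grading C X).pr j x) = 0 := by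
  rw [grading_pr]
  exact trA_of_ne (i := X.dim + j) (by
    rw [cA_prC]
    exact cmp_mem _ _) (by omega)

end chow

end Pool.Agent.Y121.NK
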