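import Pool.Agent.Y121.NK.Nil

/-!
# Homogeneous idempotents and homogeneous decompositions
-/

namespace Pool.Agent.Y121.NK

open Pool.Agent.TH829.Kim

section killed

variable {R : Type*} [Ring R] [Algebra ℚ R] {tr : R →ₗ[ℚ] ℚ}

lemma K_map (φ : R ≃ₐ[ℚ] R) (hφ : ∀ x, tr (φ x) = tr x) (η : ℚ) (n : ℕ)
    (a : Fin (n + 1) → R) : K tr η n (fun i => φ (a i)) = φ (K tr η n a) := by
  induction n with
  | zero => rfl
  | succ n ih =>
    rw [K_succ, K_succ, map_add, map_smul, map_smul, map_sum, ih, hφ]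
    congr 2
    apply Finset.sum_congr rfl
    intro i _
    rw [← ih]
    congr 1
    funext j
    by_cases hj : j = i
    · subst hj
      rw [Function.update_self, Function.update_self, map_mul]
    · rw [Function.update_of_ne hj, Function.update_of_ne hj]

lemma F_map (φ : R ≃ₐ[ℚ] R) (hφ : ∀ x, tr (φ x) = tr x) (η : ℚ) (n : ℕ)
    (a : Fin n → R) : F tr η n (fun i => φ (a i)) = F tr η n a := by
  induction n with
  | zero => rfl
  | succ n ih =>
    rw [F_succ, F_succ, ih, hφ]
    congr 2
    apply Finset.sum_congr rfl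
    intro i _
    refine Eq.trans ?_ (ih _)
    congr 1
    funext j
    by_cases hj : j = i
    · subst hj
      rw [Function.update_self, Function.update_self, map_mul]
    · rw [Function.update_of_ne hj, Function.update_of_ne hj]

lemma killed_map (φ : R ≃ₐ[ℚ] R) (hφ : ∀ x, tr (φ x) = tr x) {η : ℚ} {n : ℕ} {e : R}
    (h : Killed tr η e n) : Killed tr η (φ e) n := by
  constructor
  · intro a ha
    have h1 : ∀ i, e * φ.symm (a i) = φ.symm (a i) := by
      intro i
      conv_rhs => rw [← ha i]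
      rw [map_mul, AlgEquiv.symm_apply_apply]
    have h2 := K_map φ hφ η n (fun i => φ.symm (a i))
    rw [h.K_eq _ h1, map_zero] at h2
    simpa using h2
  · intro a ha
    have h1 : ∀ i, e * φ.symm (a i) = φ.symm (a i) := by
      intro i
      conv_rhs => rw [← ha i]
      rw [map_mul, AlgEquiv.symm_apply_apply]
    have h2 := F_map φ hφ η (n + 1) (fun i => φ.symm (a i))
    rw [h.F_eq _ h1] at h2
    simpa using h2

/-- Two decompositions of an idempotent into an even and an odd piece agree up to the radical of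
the trace form. -/
theorem inRad_sub (hsym : ∀ a b, tr (a * b) = tr (b * a)) {e1 e2 f1 f2 : R}
    (he1 : e1 * e1 = e1) (he2 : e2 * e2 = e2) (hf1 : f1 * f1 = f1)
    (hf2 : f2 * f2 = f2) (h12 : e1 * e2 = 0)
    (k21 : f2 * f1 = 0) (hsum : e1 + e2 = f1 + f2) {n m n' m' : ℕ}
    (hE : Killed tr (-1) e1 n) (hO : Killed tr 1 e2 m) (hE' : Killed tr (-1) f1 n')
    (hO' : Killed tr 1 f2 m') : InRad tr (e1 - f1) := by
  have e : e1 - f1 = e1 * f2 - e2 * f1 := by
    have h1 : e1 = e1 * (f1 + f2) := by rw [← hsum, mul_add, he1, h12, add_zero]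
    have h2 : f1 = (e1 + e2) * f1 := by rw [hsum, add_mul, hf1, k21, add_zero]
    have h3 : e1 - f1 = e1 * (f1 + f2) - (e1 + e2) * f1 := by rw [← h1, ← h2]
    rw [h3]
    noncomm_ring
  have hA : InRad tr (e1 * f2) := by
    intro γ
    have h2 := even_odd hsym he1 hf2 hE hO' 1 γ
    rw [← h2]
    calc tr (e1 * f2 * γ) = tr (e1 * (e1 * f2 * γ)) := by
          simp only [← mul_assoc, he1]
      _ = tr ((e1 * f2 * γ) * e1) := hsym _ _
      _ = tr (e1 * (f2 * f2) * γ * e1) := by rw [hf2]
      _ = _ := by simp only [mul_one, mul_assoc]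
  have hB : InRad tr (e2 * f1) := by
    intro γ
    have h2 := even_odd hsym hf1 he2 hE' hO γ 1
    rw [← h2]
    calc tr (e2 * f1 * γ) = tr (e2 * (f1 * γ)) := by rw [mul_assoc]
      _ = tr (f1 * γ * e2) := hsym _ _
      _ = tr (f1 * (f1 * γ * e2)) := by simp only [← mul_assoc, hf1]
      _ = tr ((f1 * γ * e2) * f1) := hsym _ _
      _ = tr (f1 * γ * (e2 * e2) * f1) := by rw [he2]
      _ = _ := by simp only [mul_one, mul_assoc]
  rw [e]
  exact hA.sub hB

end killed

namespace BGr

variable {R : Type*} [Ring R] [Algebra ℚ R] (G : BGr R) {tr : R →ₗ[ℚ] ℚ}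

/-- The subalgebra of the elements of degree zero. -/
def zeroPart : Subalgebra ℚ R where
  carrier := {x | G.pr 0 x = x}
  mul_mem' {a b} ha hb := by
    have ha' : G.pr 0 a = a := ha
    have hb' : G.pr 0 b = b := hb
    have h := G.pr_mul_left 0 0 a b ha'
    rw [zero_add, hb'] at h
    exact h
  add_mem' {a b} ha hb := by
    have ha' : G.pr 0 a = a := ha
    have hb' : G.pr 0 b = b := hb
    change G.pr 0 (a + b) = a + b
    rw [map_add, ha', hb']
  algebraMap_mem' q := by
    change G.pr 0 (algebraMap ℚ R q) = algebraMap ℚ R q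
    rw [Algebra.algebraMap_eq_smul_one, map_smul, G.pr_one]

lemma mem_zeroPart {x : R} : x ∈ G.zeroPart ↔ G.pr 0 x = x := Iff.rfl

/-- Lifting of idempotents of degree zero. -/
lemma exists_lift0 {t : R} (ht : G.pr 0 t = t) (hn : IsNilpotent (t * t - t)) :
    ∃ p c : R, G.pr 0 p = p ∧ p * p = p ∧ p - t = (t * t - t) * c := by
  let t' : G.zeroPart := ⟨t, ht⟩
  have hn' : IsNilpotent (t' * t' - t') := by
    obtain ⟨N, hN⟩ := hn
    refine ⟨N, ?_⟩
    apply Subtype.ext
    change ((((t' * t' - t') ^ N : G.zeroPart)) : R) = 0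
    rw [SubmonoidClass.coe_pow]
    exact hN
  obtain ⟨p, c, hp, hc⟩ := exists_lift hn'
  exact ⟨p, c, p.2, congrArg Subtype.val hp, congrArg Subtype.val hc⟩

variable (htr : ∀ j x, j ≠ 0 → tr (G.pr j x) = 0)

include htr

lemma tr_scale (x : R) : tr (G.scale x) = tr x := by
  have h1 : tr (G.scale x) = tr (G.pr 0 (G.scale x)) := by
    conv_lhs => rw [← G.sum_pr (G.scale x)]
    rw [map_sum]
    apply Finset.sum_eq_single_of_mem 0
    · rw [Finset.mem_Icc]
      constructor <;> omega
    · intro j _ hj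
      exact htr j _ hj
  have h2 : tr x = tr (G.pr 0 x) := by
    conv_lhs => rw [← G.sum_pr x]
    rw [map_sum]
    apply Finset.sum_eq_single_of_mem 0
    · rw [Finset.mem_Icc]
      constructor <;> omega
    · intro j _ hj
      exact htr j _ hj
  rw [h1, h2, G.scale_apply, pr_scaleL, zpow_zero, one_smul]

lemma inRad_pr {x : R} (hx : InRad tr x) (j : ℤ) : InRad tr (G.pr j x) := by
  let V : Submodule ℚ R :=
    { carrier := {a | InRad tr a}
      zero_mem' := fun γ => by rw [zero_mul, map_zero]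
      add_mem' := fun {a b} h1 h2 => InRad.add h1 h2
      smul_mem' := fun q a h1 γ => by rw [smul_mul_assoc, map_smul, h1, smul_zero] }
  exact G.pr_mem_of_scale (V := V) (fun x hx => inRad_map G.scale (G.tr_scale htr) hx) hx j

lemma good_pr {x : R} (hx : Good tr x) (j : ℤ) : Good tr (G.pr j x) := by
  let V : Submodule ℚ R :=
    { carrier := {a | Good tr a}
      zero_mem' := Good.zero
      add_mem' := fun {a b} h1 h2 => Good.add h1 h2
      smul_mem' := fun q a h1 => Good.smul h1 q }
  exact G.pr_mem_of_scale (V := V) (fun x hx => Good.map G.scale (G.tr_scale htr) hx) hx j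

/-- The decomposition of a homogeneous idempotent into an even and an odd piece can be made
homogeneous by a conjugation. -/
theorem exists_homogeneous_decomposition (hsym : ∀ a b, tr (a * b) = tr (b * a)) {e e1 e2 : R}
    (he : G.pr 0 e = e) (he1 : e1 * e1 = e1) (he2 : e2 * e2 = e2) (h12 : e1 * e2 = 0)
    (h21 : e2 * e1 = 0) (hsum : e1 + e2 = e) {n m : ℕ} (hE : Killed tr (-1) e1 n)
    (hO : Killed tr 1 e2 m) : ∃ f1 f2 w w' : R, G.pr 0 f1 = f1 ∧ G.pr 0 f2 = f2 ∧
      f1 * f1 = f1 ∧ f2 * f2 = f2 ∧ f1 * f2 = 0 ∧ f2 * f1 = 0 ∧ f1 + f2 = e ∧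
      f1 = w' * e1 * w ∧ f2 = w' * e2 * w := by
  have hee : e * e = e := by
    rw [← hsum, add_mul, mul_add, mul_add, he1, he2, h12, h21, add_zero, zero_add]
  have hee1 : e * e1 = e1 := by rw [← hsum, add_mul, he1, h21, add_zero]
  have he1e : e1 * e = e1 := by rw [← hsum, mul_add, he1, h12, add_zero]
  have hee2 : e * e2 = e2 := by rw [← hsum, add_mul, he2, h12, zero_add]
  have he2e : e2 * e = e2 := by rw [← hsum, mul_add, he2, h21, zero_add]
  have hg1 : Good tr e1 := Good.of_killed hsym he1 (by norm_num) hE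
  have hg2 : Good tr e2 := Good.of_killed hsym he2 one_ne_zero hO
  have hge : Good tr e := hsum ▸ hg1.add hg2
  have hφe : G.scale e = e := by
    rw [G.scale_apply]
    apply G.ext_pr
    intro i
    rw [pr_scaleL]
    by_cases hi : i = 0
    · subst hi
      rw [zpow_zero, one_smul]
    · rw [← he, G.pr_ne i 0 e hi, smul_zero]
  -- the difference of `e1` and its component of degree zero
  have h1 : InRad tr (e1 - G.scale e1) := by
    refine inRad_sub hsym he1 he2 (f1 := G.scale e1) (f2 := G.scale e2) ?_ ?_ h12 ?_ ?_ hE hO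
      (killed_map G.scale (G.tr_scale htr) hE) (killed_map G.scale (G.tr_scale htr) hO)
    · rw [← map_mul, he1]
    · rw [← map_mul, he2]
    · rw [← map_mul, h21, map_zero]
    · rw [← map_add, hsum, hφe]
  have h2 : ∀ j : ℤ, j ≠ 0 → InRad tr (G.pr j e1) := by
    intro j hj
    have h3 := G.inRad_pr htr h1 j
    rw [map_sub, G.scale_apply, pr_scaleL] at h3
    have h4 : G.pr j e1 - (2 : ℚ) ^ j • G.pr j e1 = (1 - (2 : ℚ) ^ j) • G.pr j e1 := by
      rw [sub_smul, one_smul]
    rw [h4] at h3
    have h5 : (1 - (2 : ℚ) ^ j) ≠ 0 := by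
      intro h
      have h6 : (2 : ℚ) ^ j = (2 : ℚ) ^ (0 : ℤ) := by rw [zpow_zero]; linarith
      exact hj (zpow_right_injective₀ (by norm_num) (by norm_num) h6)
    intro γ
    have h7 := h3 γ
    rw [smul_mul_assoc, map_smul, smul_eq_mul] at h7
    exact (mul_eq_zero.1 h7).resolve_left h5
  set f := G.pr 0 e1 with hf
  have h3 : InRad tr (e1 - f) := by
    have h4 : e1 - f = ∑ j ∈ (Finset.Icc (-(G.d : ℤ)) G.d).erase 0, G.pr j e1 := by
      rw [sub_eq_iff_eq_add']
      have h0 : (0 : ℤ) ∈ Finset.Icc (-(G.d : ℤ)) G.d := by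
        rw [Finset.mem_Icc]
        constructor <;> omega
      rw [hf, Finset.add_sum_erase _ (fun j => G.pr j e1) h0, G.sum_pr]
    rw [h4]
    intro γ
    rw [Finset.sum_mul, map_sum]
    apply Finset.sum_eq_zero
    intro j hj
    exact h2 j (Finset.ne_of_mem_erase hj) γ
  have hef : e * f = f := by
    have h := G.pr_mul_left 0 0 e e1 he
    rw [zero_add, hee1] at h
    exact h.symm
  have hfe : f * e = f := by
    have h := G.pr_mul_right 0 0 e1 e he
    rw [zero_add, he1e] at h
    exact h.symm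
  have hff : G.pr 0 f = f := G.pr_self 0 e1
  have h4 : InRad tr (f * f - f) := by
    have e : f * f - f = (f - e1) * f + e1 * (f - e1) + (e1 - f) := by
      have : e1 * e1 = e1 := he1
      calc f * f - f = (f - e1) * f + e1 * (f - e1) + (e1 * e1 - f) := by noncomm_ring
        _ = _ := by rw [he1]
    have h5 : InRad tr (f - e1) := by
      have := h3.neg
      rwa [neg_sub] at this
    rw [e]
    exact ((h5.mul_right _).add (h5.mul_left hsym _)).add h3
  have hgf : Good tr f := G.good_pr htr hg1 0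
  have h5 : IsNilpotent (f * f - f) := Good.isNilpotent h4 ((hgf.mul_right f).sub hgf)
  obtain ⟨p, c, hp0, hpp, hpc⟩ := G.exists_lift0 hff h5
  have hep : e * p = p := by
    have h6 : p = f + (f * f - f) * c := by rw [← hpc]; abel
    rw [h6, mul_add, hef, ← mul_assoc, mul_sub, ← mul_assoc, hef]
  set f1 := p * e with hf1
  have hf1f1 : f1 * f1 = f1 := by
    rw [hf1, mul_assoc, ← mul_assoc e p, hep, ← mul_assoc, hpp]
  have hef1 : e * f1 = f1 := by rw [hf1, ← mul_assoc, hep]
  have hf1e : f1 * e = f1 := by rw [hf1, mul_assoc, hee]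
  have hf10 : G.pr 0 f1 = f1 := by
    have h := G.pr_mul_left 0 0 p e hp0
    rw [zero_add, he] at h
    exact h
  have h6 : InRad tr (e1 - f1) := by
    have h7 : e1 - f1 = (e1 - f) - (f * f - f) * (c * e) := by
      have h8 : f1 - f = (f * f - f) * (c * e) := by
        rw [hf1, ← mul_assoc, ← hpc, sub_mul, hfe]
      rw [← h8]
      abel
    rw [h7]
    exact h3.sub (h4.mul_right _)
  set f2 := e - f1 with hf2
  have hf2f2 : f2 * f2 = f2 := by
    rw [hf2, mul_sub, sub_mul, sub_mul, hee, hf1e, hef1, hf1f1]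
    abel
  have hf1f2 : f1 * f2 = 0 := by rw [hf2, mul_sub, hf1e, hf1f1, sub_self]
  have hf2f1 : f2 * f1 = 0 := by rw [hf2, sub_mul, hef1, hf1f1, sub_self]
  have hf20 : G.pr 0 f2 = f2 := by rw [hf2, map_sub, he, hf10]
  set w := e1 * f1 + e2 * f2 + (1 - e) with hw
  have h7 : IsNilpotent (w - 1) := by
    have h8 : w - 1 = e1 * (f1 - e1) + e2 * (f2 - e2) := by
      rw [hw, mul_sub e1 f1 e1, mul_sub e2 f2 e2, he1, he2, ← hsum]
      abel
    have h9 : InRad tr (f1 - e1) := by
      have := h6.neg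
      rwa [neg_sub] at this
    have h10 : InRad tr (f2 - e2) := by
      have h11 : f2 - e2 = e1 - f1 := by rw [hf2, ← hsum]; abel
      rw [h11]
      exact h6
    rw [h8]
    exact Good.isNilpotent ((h9.mul_left hsym _).add (h10.mul_left hsym _))
      ((hg1.mul_right _).add (hg2.mul_right _))
  have h8 : IsUnit w := by
    have h9 := h7.isUnit_add_one
    rwa [sub_add_cancel] at h9
  obtain ⟨U, hU⟩ := h8
  have h9 : e1 * w = w * f1 := by
    have e1' : e1 * (e2 * f2) = 0 := by rw [← mul_assoc, h12, zero_mul]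
    have e2' : e1 * (1 - e) = 0 := by rw [mul_sub, mul_one, he1e, sub_self]
    have e3' : e2 * f2 * f1 = 0 := by rw [mul_assoc, hf2f1, mul_zero]
    have e4' : (1 - e) * f1 = 0 := by rw [sub_mul, one_mul, hef1, sub_self]
    rw [hw, mul_add, mul_add, add_mul, add_mul, e1', e2', e3', e4', ← mul_assoc, he1, mul_assoc,
      hf1f1]
  have h10 : e2 * w = w * f2 := by
    have hef2 : e * f2 = f2 := by rw [hf2, mul_sub, hee, hef1]
    have e1' : e2 * (e1 * f1) = 0 := by rw [← mul_assoc, h21, zero_mul]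
    have e2' : e2 * (1 - e) = 0 := by rw [mul_sub, mul_one, he2e, sub_self]
    have e3' : e1 * f1 * f2 = 0 := by rw [mul_assoc, hf1f2, mul_zero]
    have e4' : (1 - e) * f2 = 0 := by rw [sub_mul, one_mul, hef2, sub_self]
    rw [hw, mul_add, mul_add, add_mul, add_mul, e1', e2', e3', e4', ← mul_assoc, he2, mul_assoc,
      hf2f2]
  refine ⟨f1, f2, w, ↑U⁻¹, hf10, hf20, hf1f1, hf2f2, hf1f2, hf2f1, ?_, ?_, ?_⟩
  · rw [hf2]
    abel
  · rw [mul_assoc, h9, ← mul_assoc, ← hU, Units.inv_mul, one_mul]
  · rw [mul_assoc, h10, ← mul_assoc, ← hU, Units.inv_mul, one_mul]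

/-- An idempotent whose products with the radical of the trace form lie in nil ideals is isomorphic
to a homogeneous idempotent. -/
theorem exists_homogeneous_iso (hsym : ∀ a b, tr (a * b) = tr (b * a))
    (hfin : ∃ (n : ℕ) (f : R →ₗ[ℚ] (Fin n → ℚ)), ∀ x, f x = 0 → InRad tr x) {e : R}
    (he : e * e = e) (hge : Good tr e) : ∃ p u v : R, G.pr 0 p = p ∧ p * p = p ∧ u * v = e ∧
      v * u = p ∧ Good tr p := by
  classical
  -- the radical as an ideal
  let J : Ideal R :=
    { carrier := {a | InRad tr a}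
      zero_mem' := fun γ => by rw [zero_mul, map_zero]
      add_mem' := fun {a b} h1 h2 => InRad.add h1 h2
      smul_mem' := fun r a h1 => InRad.mul_left hsym h1 r }
  have hJ : J.IsTwoSided := ⟨fun {a} b ha => InRad.mul_right (show InRad tr a from ha) b⟩
  have hJmem : ∀ x, x ∈ J ↔ InRad tr x := fun x => Iff.rfl
  have hJfin : Module.Finite ℚ (R ⧸ J) := by
    obtain ⟨n, f, hf⟩ := hfin
    have : Module.Finite ℚ (R ⧸ LinearMap.ker f) :=
      Module.Finite.equiv f.quotKerEquivRange.symm
    let g : (R ⧸ LinearMap.ker f) →ₗ[ℚ] (R ⧸ J) :=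
      (LinearMap.ker f).liftQ ((Submodule.mkQ J).restrictScalars ℚ) (by
        intro x hx
        rw [LinearMap.mem_ker] at hx ⊢
        rw [LinearMap.restrictScalars_apply, Submodule.mkQ_apply, Submodule.Quotient.mk_eq_zero]
        exact hf x hx)
    apply Module.Finite.of_surjective g
    intro y
    obtain ⟨x, rfl⟩ := Submodule.Quotient.mk_surjective J y
    exact ⟨Submodule.Quotient.mk x, rfl⟩
  have hArt : IsArtinianRing (R ⧸ J) := IsArtinianRing.of_finite ℚ (R ⧸ J)
  let S := R ⧸ J
  let T := S ⧸ Ring.jacobson S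
  let mkJ : R →+* S := Ideal.Quotient.mk J
  let mkR : S →+* T := Ideal.Quotient.mk (Ring.jacobson S)
  let π : R →+* T := mkR.comp mkJ
  have hπs : Function.Surjective π :=
    (Ideal.Quotient.mk_surjective).comp (Ideal.Quotient.mk_surjective)
  have hπ0 : ∀ x, π x = 0 ↔ mkJ x ∈ Ring.jacobson S := fun x => Ideal.Quotient.eq_zero_iff_mem
  -- stability under the automorphism
  have hφJ : ∀ x ∈ J, (mkJ.comp (G.scale : R →+* R)) x = 0 := by
    intro x hx
    exact Ideal.Quotient.eq_zero_iff_mem.2 (inRad_map G.scale (G.tr_scale htr) hx)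
  let φJ : S →+* S := Ideal.Quotient.lift J (mkJ.comp (G.scale : R →+* R)) hφJ
  have hφJ' : ∀ x, φJ (mkJ x) = mkJ (G.scale x) := fun x => rfl
  have : RingHomSurjective φJ := ⟨by
    intro y
    obtain ⟨x, rfl⟩ := Ideal.Quotient.mk_surjective y
    refine ⟨mkJ (G.scale.symm x), ?_⟩
    rw [hφJ', AlgEquiv.apply_symm_apply]⟩
  have hker : ∀ x, π x = 0 → ∀ j, π (G.pr j x) = 0 := by
    let V : Submodule ℚ R :=
      { carrier := {a | π a = 0}
        zero_mem' := map_zero π
        add_mem' := fun {a b} h1 h2 => by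
          change π (a + b) = 0
          rw [map_add, show π a = 0 from h1, show π b = 0 from h2, add_zero]
        smul_mem' := fun q a h1 => by
          change π (q • a) = 0
          rw [Algebra.smul_def, map_mul, show π a = 0 from h1, mul_zero] }
    intro x hx j
    refine G.pr_mem_of_scale (V := V) ?_ hx j
    intro y hy
    have h1 : mkJ y ∈ Ring.jacobson S := (hπ0 y).1 hy
    have h2 := Ring.le_comap_jacobson φJ h1
    rw [Ideal.mem_comap, hφJ'] at h2
    exact (hπ0 _).2 h2
  have hsp : IsSemiprimaryRing S := by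
    have : IsArtinianRing S := hArt
    infer_instance
  obtain ⟨N, hN⟩ := hsp.isNilpotent
  have hnil : ∀ x, π x = 0 → Good tr x → IsNilpotent x := by
    intro x hx hgx
    have h1 : mkJ x ∈ Ring.jacobson S := (hπ0 x).1 hx
    have h2 : InRad tr (x ^ (N + 1)) := by
      have h3 : (mkJ x) ^ N ∈ (Ring.jacobson S) ^ N := Ideal.pow_mem_pow h1 N
      rw [hN, ← map_pow] at h3
      have h4 : x ^ N ∈ J := Ideal.Quotient.eq_zero_iff_mem.1 h3
      rw [pow_succ]
      exact InRad.mul_right h4 x
    have h3 : Good tr (x ^ (N + 1)) := by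
      rw [pow_succ]
      exact hgx.mul_left _
    obtain ⟨M, hM⟩ := Good.isNilpotent h2 h3
    exact ⟨(N + 1) * M, by rw [pow_mul, hM]⟩
  obtain ⟨p0, u, v, hp0, hp0p0, huv, hvu, hup, hpv, heu, hve⟩ :=
    G.exists_homogeneous π hπs hker he
  -- the lift of the homogeneous idempotent
  set t := G.pr 0 (v * u) with ht
  have ht0 : G.pr 0 t = t := G.pr_self 0 _
  have hπt : π t = π p0 := by
    have h1 := hker (v * u - p0) (by rw [map_sub, hvu, sub_self]) 0
    rw [map_sub, hp0, map_sub, sub_eq_zero] at h1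
    exact h1
  have hgt : Good tr t := by
    apply G.good_pr htr
    rw [← hve, mul_assoc]
    exact (hge.mul_right u).mul_left v
  have hn : IsNilpotent (t * t - t) := by
    apply hnil _ _ ((hgt.mul_right t).sub hgt)
    rw [map_sub, map_mul, hπt, ← map_mul, hp0p0, sub_self]
  obtain ⟨p, c, hp1, hpp, hpc⟩ := G.exists_lift0 ht0 hn
  have hpt : p = t + (t * t - t) * c := by rw [← hpc]; abel
  have hgp : Good tr p := by
    rw [hpt]
    exact hgt.add (((hgt.mul_right t).sub hgt).mul_right c)
  have hπp : π p = π p0 := by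
    rw [hpt, map_add, map_mul, map_sub, map_mul, hπt, ← map_mul π p0 p0, hp0p0, sub_self, zero_mul,
      add_zero]
  -- the isomorphism
  set a := u * p with ha
  set b := p * v with hb
  have hea : e * a = a := by rw [ha, ← mul_assoc, heu]
  have hap : a * p = a := by rw [ha, mul_assoc, hpp]
  have hbe : b * e = b := by rw [hb, mul_assoc, hve]
  have hpb : p * b = b := by rw [hb, ← mul_assoc, hpp]
  set x := e - a * b with hx
  have hex : e * x = x := by rw [hx, mul_sub, he, ← mul_assoc, hea]
  have hxe : x * e = x := by rw [hx, sub_mul, he, mul_assoc, hbe]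
  have hπx : π x = 0 := by
    have h1 : π (a * b) = π u * π p0 * π p0 * π v := by
      rw [ha, hb]
      simp only [map_mul, hπp, mul_assoc]
    rw [hx, map_sub, h1, ← map_mul π u, hup, ← map_mul π u, hup, ← map_mul π u, huv, sub_self]
  have hgx : Good tr x := by
    rw [← hex]
    exact hge.mul_right x
  have hnx : IsNilpotent x := hnil x hπx hgx
  obtain ⟨s, hs⟩ := hnx.isUnit_one_sub
  have hs1 : (1 - x) * ((s⁻¹ : Rˣ) : R) = 1 := by rw [← hs, Units.mul_inv]
  have hs2 : ((s⁻¹ : Rˣ) : R) * (1 - x) = 1 := by rw [← hs, Units.inv_mul]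
  set r : R := ((s⁻¹ : Rˣ) : R) with hr
  have hab : a * b = e * (1 - x) := by
    rw [mul_sub, mul_one, hex, hx]
    abel
  have hce : (1 - x) * e = e * (1 - x) := by
    rw [mul_sub, sub_mul, mul_one, one_mul, hex, hxe]
  have hre : r * e = e * r := by
    calc r * e = r * e * ((1 - x) * r) := by rw [hs1, mul_one]
      _ = r * (e * (1 - x)) * r := by simp only [mul_assoc]
      _ = r * ((1 - x) * e) * r := by rw [hce]
      _ = (r * (1 - x)) * e * r := by simp only [mul_assoc]
      _ = e * r := by rw [hs2, one_mul]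
  have hπr : π r = 1 := by
    have h1 := congrArg π hs1
    rw [map_mul, map_sub, hπx, map_one, sub_zero, one_mul] at h1
    exact h1
  set b' := b * r with hb'
  have hab' : a * b' = e := by
    rw [hb', ← mul_assoc, hab, mul_assoc, hs1, mul_one]
  have hb'e : b' * e = b' := by
    rw [hb', mul_assoc, hre, ← mul_assoc, hbe]
  have hpb' : p * b' = b' := by rw [hb', ← mul_assoc, hpb]
  set q := b' * a with hq
  have hqq : q * q = q := by
    calc q * q = b' * (a * b') * a := by rw [hq]; simp only [mul_assoc]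
      _ = q := by rw [hab', hb'e]
  have hpq : p * q = q := by rw [hq, ← mul_assoc, hpb']
  have hqp : q * p = q := by rw [hq, mul_assoc, hap]
  have hidem : (p - q) * (p - q) = p - q := by
    rw [mul_sub, sub_mul, sub_mul, hpp, hqp, hpq, hqq]
    abel
  have hπpq : π (p - q) = 0 := by
    have h1 : π q = π p0 * π v * (π u * π p0) := by
      rw [hq, hb', hb, ha]
      simp only [map_mul, hπp, hπr, mul_one]
    have h2 : π p0 * π v * (π u * π p0) = π p0 * π (v * u) * π p0 := by
      simp only [map_mul, mul_assoc]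
    rw [map_sub, h1, h2, hvu, hπp, ← map_mul, hp0p0, ← map_mul, hp0p0, sub_self]
  have hgq : Good tr q := by
    have h1 : q = b' * e * a := by rw [hb'e]
    rw [h1, mul_assoc]
    exact (hge.mul_right a).mul_left b'
  have hzero : p - q = 0 := by
    obtain ⟨M, hM⟩ := hnil _ hπpq (hgp.sub hgq)
    have h1 : ∀ k : ℕ, (p - q) ^ (k + 1) = p - q := by
      intro k
      induction k with
      | zero => rw [zero_add, pow_one]
      | succ k ih => rw [pow_succ, ih, hidem]
    rw [← h1 M, pow_succ, hM, zero_mul]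
  refine ⟨p, a, b', hp1, hpp, hab', ?_, hgp⟩
  rw [sub_eq_zero] at hzero
  exact hzero.symm

end BGr

end Pool.Agent.Y121.NK
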