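import Pool.Agent.TH829.Kim.Alg2
import Pool.Agent.Y121.NK.Graded
import Mathlib.LinearAlgebra.Lagrange

/-!
# Nil ideals, the radical of the trace form and killed idempotents
-/

namespace Pool.Agent.Y121.NK

open Pool.Agent.TH829.Kim

section nil

variable {R : Type*} [Ring R] [Algebra ℚ R]

/-- The element `x` lies in a nil two-sided ideal. -/
def InNil (x : R) : Prop := ∃ S : Submodule ℚ R, (∀ a, ∀ s ∈ S, a * s ∈ S) ∧
  (∀ a, ∀ s ∈ S, s * a ∈ S) ∧ (∀ s ∈ S, IsNilpotent s) ∧ x ∈ S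

lemma InNil.isNilpotent {x : R} (h : InNil x) : IsNilpotent x := by
  obtain ⟨S, -, -, h3, h4⟩ := h
  exact h3 x h4

lemma InNil.zero : InNil (0 : R) := ⟨⊥, fun a s hs => by
  rw [Submodule.mem_bot] at hs ⊢
  rw [hs, mul_zero], fun a s hs => by
  rw [Submodule.mem_bot] at hs ⊢
  rw [hs, zero_mul], fun s hs => by
  rw [Submodule.mem_bot] at hs
  rw [hs]
  exact IsNilpotent.zero, Submodule.zero_mem _⟩

lemma InNil.mul_left {x : R} (h : InNil x) (a : R) : InNil (a * x) := by
  obtain ⟨S, h1, h2, h3, h4⟩ := h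
  exact ⟨S, h1, h2, h3, h1 a x h4⟩

lemma InNil.mul_right {x : R} (h : InNil x) (a : R) : InNil (x * a) := by
  obtain ⟨S, h1, h2, h3, h4⟩ := h
  exact ⟨S, h1, h2, h3, h2 a x h4⟩

lemma InNil.smul {x : R} (h : InNil x) (q : ℚ) : InNil (q • x) := by
  obtain ⟨S, h1, h2, h3, h4⟩ := h
  exact ⟨S, h1, h2, h3, S.smul_mem q h4⟩

lemma isNilpotent_of_ideal {T : Submodule ℚ R} (hl : ∀ a, ∀ s ∈ T, a * s ∈ T)
    (hr : ∀ a, ∀ s ∈ T, s * a ∈ T) (hn : ∀ s ∈ T, IsNilpotent s) {s x : R} (hs : IsNilpotent s)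
    (hx : x - s ∈ T) : IsNilpotent x := by
  obtain ⟨N, hN⟩ := hs
  have h1 : ∀ n : ℕ, x ^ n - s ^ n ∈ T := by
    intro n
    induction n with
    | zero => rw [pow_zero, pow_zero, sub_self]; exact T.zero_mem
    | succ n ih =>
      have e : x ^ (n + 1) - s ^ (n + 1) = (x ^ n - s ^ n) * x + s ^ n * (x - s) := by
        rw [pow_succ, pow_succ]
        noncomm_ring
      rw [e]
      exact T.add_mem (hr _ _ ih) (hl _ _ hx)
  have h2 := h1 N
  rw [hN, sub_zero] at h2
  obtain ⟨M, hM⟩ := hn _ h2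
  exact ⟨N * M, by rw [pow_mul, hM]⟩

lemma InNil.add {x y : R} (hx : InNil x) (hy : InNil y) : InNil (x + y) := by
  obtain ⟨S, h1, h2, h3, h4⟩ := hx
  obtain ⟨T, k1, k2, k3, k4⟩ := hy
  refine ⟨S ⊔ T, ?_, ?_, ?_, Submodule.add_mem_sup h4 k4⟩
  · intro a s hs
    obtain ⟨u, hu, v, hv, rfl⟩ := Submodule.mem_sup.1 hs
    rw [mul_add]
    exact Submodule.add_mem_sup (h1 a u hu) (k1 a v hv)
  · intro a s hs
    obtain ⟨u, hu, v, hv, rfl⟩ := Submodule.mem_sup.1 hs
    rw [add_mul]
    exact Submodule.add_mem_sup (h2 a u hu) (k2 a v hv)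
  · intro s hs
    obtain ⟨u, hu, v, hv, rfl⟩ := Submodule.mem_sup.1 hs
    exact isNilpotent_of_ideal k1 k2 k3 (h3 u hu) (by rwa [add_sub_cancel_left])

lemma InNil.neg {x : R} (hx : InNil x) : InNil (-x) := by
  have := hx.smul (-1)
  rwa [neg_smul, one_smul] at this

lemma InNil.sub {x y : R} (hx : InNil x) (hy : InNil y) : InNil (x - y) := by
  rw [sub_eq_add_neg]
  exact hx.add hy.neg

lemma InNil.map (φ : R ≃ₐ[ℚ] R) {x : R} (hx : InNil x) : InNil (φ x) := by
  obtain ⟨S, h1, h2, h3, h4⟩ := hx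
  refine ⟨S.map φ.toLinearMap, ?_, ?_, ?_, ⟨x, h4, rfl⟩⟩
  · rintro a _ ⟨s, hs, rfl⟩
    refine ⟨φ.symm a * s, h1 _ s hs, ?_⟩
    simp
  · rintro a _ ⟨s, hs, rfl⟩
    refine ⟨s * φ.symm a, h2 _ s hs, ?_⟩
    simp
  · rintro _ ⟨s, hs, rfl⟩
    exact (h3 s hs).map φ

variable {tr : R →ₗ[ℚ] ℚ}

/-- Products of elements of the radical of the trace form with killed idempotents lie in nil
ideals. -/
theorem inNil_of_killed (hsym : ∀ a b, tr (a * b) = tr (b * a)) {g : R} (hgg : g * g = g) {η : ℚ}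
    (hη : η ≠ 0) {m : ℕ} (hO : Killed tr η g m) {x : R} (hx : InRad tr x) : InNil (x * g) := by
  let B : Submodule ℚ R :=
    { carrier := {a | InRad tr a ∧ g * a = a}
      zero_mem' := ⟨fun γ => by rw [zero_mul, map_zero], mul_zero _⟩
      add_mem' := by
        rintro a b ⟨h1, h2⟩ ⟨h3, h4⟩
        exact ⟨h1.add h3, by rw [mul_add, h2, h4]⟩
      smul_mem' := by
        rintro q a ⟨h1, h2⟩
        refine ⟨fun γ => ?_, by rw [mul_smul_comm, h2]⟩
        rw [smul_mul_assoc, map_smul, h1, smul_zero] }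
  let N : Submodule ℚ R :=
    { carrier := {a | InRad tr a}
      zero_mem' := fun γ => by rw [zero_mul, map_zero]
      add_mem' := fun {a b} h1 h2 => InRad.add h1 h2
      smul_mem' := fun q a h1 γ => by rw [smul_mul_assoc, map_smul, h1, smul_zero] }
  have hB : ∀ x ∈ B, ∀ y ∈ B, x * y ∈ B := by
    rintro a ⟨h1, h2⟩ b ⟨h3, h4⟩
    exact ⟨h1.mul_right b, by rw [← mul_assoc, h2]⟩
  have hBn : B ^ (2 ^ (m + 1) - 1) = ⊥ := by
    rw [eq_bot_iff]
    apply nagata_higman m hB bot_le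
    · intro x _ y hy
      rw [Submodule.mem_bot] at hy ⊢
      rw [hy, mul_zero]
    · intro x hx y _
      rw [Submodule.mem_bot] at hx ⊢
      rw [hx, zero_mul]
    · rintro a ⟨h1, h2⟩
      rw [Submodule.mem_bot]
      exact h1.pow_eq_zero h2 hη hO
  let G : Submodule ℚ R := Submodule.span ℚ {g} * ⊤
  let S : Submodule ℚ R := N * G
  have hGN : G * N ≤ B := by
    rw [Submodule.mul_le]
    intro a ha b hb
    refine ⟨hb.mul_left hsym a, ?_⟩
    obtain ⟨c, rfl⟩ : ∃ c, a = g * c := by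
      have h1 : Submodule.span ℚ {g} * ⊤ ≤ LinearMap.range (LinearMap.mulLeft ℚ g) := by
        rw [Submodule.mul_le]
        intro u hu v _
        obtain ⟨q, rfl⟩ := Submodule.mem_span_singleton.1 hu
        exact ⟨q • v, by rw [LinearMap.mulLeft_apply, mul_smul_comm, smul_mul_assoc]⟩
      obtain ⟨c, hc⟩ := h1 ha
      exact ⟨c, hc.symm⟩
    rw [← mul_assoc, ← mul_assoc, hgg]
  have hSpow : ∀ k, S ^ (k + 1) ≤ N * B ^ k * G := by
    intro k
    induction k with
    | zero => rw [zero_add, pow_one, pow_zero, mul_one]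
    | succ k ih =>
      calc S ^ (k + 1 + 1) = S ^ (k + 1) * S := pow_succ _ _
        _ ≤ N * B ^ k * G * (N * G) := by gcongr
        _ = N * B ^ k * (G * N) * G := by simp only [mul_assoc]
        _ ≤ N * B ^ k * B * G := by gcongr
        _ = N * B ^ (k + 1) * G := by rw [pow_succ]; simp only [mul_assoc]
  have hSnil : S ^ (2 ^ (m + 1) - 1 + 1) = ⊥ := by
    rw [eq_bot_iff]
    refine (hSpow _).trans ?_
    rw [hBn, Submodule.mul_bot, Submodule.bot_mul]
  refine ⟨S, ?_, ?_, ?_, ?_⟩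
  · intro a s hs
    have h1 : (⊤ : Submodule ℚ R) * S ≤ S := by
      rw [← mul_assoc]
      have h2 : (⊤ : Submodule ℚ R) * N ≤ N := Submodule.mul_le.2 fun u _ v hv =>
        InRad.mul_left hsym hv u
      exact mul_le_mul' h2 le_rfl
    exact h1 (Submodule.mul_mem_mul Submodule.mem_top hs)
  · intro a s hs
    have h1 : S * (⊤ : Submodule ℚ R) ≤ S := by
      rw [show S * (⊤ : Submodule ℚ R) = N * (Submodule.span ℚ {g} * (⊤ * ⊤)) by
        simp only [S, G, mul_assoc]]
      exact mul_le_mul' le_rfl (mul_le_mul' le_rfl le_top)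
    exact h1 (Submodule.mul_mem_mul hs Submodule.mem_top)
  · intro s hs
    refine ⟨2 ^ (m + 1) - 1 + 1, ?_⟩
    have h2 := Submodule.pow_mem_pow S hs (2 ^ (m + 1) - 1 + 1)
    rw [hSnil, Submodule.mem_bot] at h2
    exact h2
  · have : g ∈ G := by
      have := Submodule.mul_mem_mul (Submodule.mem_span_singleton_self (R := ℚ) g)
        (Submodule.mem_top (R := ℚ) (x := (1 : R)))
      rwa [mul_one] at this
    exact Submodule.mul_mem_mul (show x ∈ N from hx) this

/-- The product of any element of the radical of the trace form with `z` lies in a nil ideal. -/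
def Good (tr : R →ₗ[ℚ] ℚ) (z : R) : Prop := ∀ x, InRad tr x → InNil (x * z)

lemma Good.of_killed (hsym : ∀ a b, tr (a * b) = tr (b * a)) {g : R} (hgg : g * g = g) {η : ℚ}
    (hη : η ≠ 0) {m : ℕ} (hO : Killed tr η g m) : Good tr g :=
  fun _ hx => inNil_of_killed hsym hgg hη hO hx

lemma Good.add {y z : R} (hy : Good tr y) (hz : Good tr z) : Good tr (y + z) := fun x hx => by
  rw [mul_add]
  exact (hy x hx).add (hz x hx)

lemma Good.sub {y z : R} (hy : Good tr y) (hz : Good tr z) : Good tr (y - z) := fun x hx => by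
  rw [mul_sub]
  exact (hy x hx).sub (hz x hx)

lemma Good.zero : Good tr (0 : R) := fun x _ => by
  rw [mul_zero]
  exact InNil.zero

lemma Good.smul {z : R} (hz : Good tr z) (q : ℚ) : Good tr (q • z) := fun x hx => by
  rw [mul_smul_comm]
  exact (hz x hx).smul q

lemma Good.mul_right {z : R} (hz : Good tr z) (a : R) : Good tr (z * a) := fun x hx => by
  rw [← mul_assoc]
  exact (hz x hx).mul_right a

lemma Good.mul_left {z : R} (hz : Good tr z) (a : R) : Good tr (a * z) := fun x hx => by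
  rw [← mul_assoc]
  exact hz (x * a) (hx.mul_right a)

lemma Good.isNilpotent {x : R} (hx : InRad tr x) (h : Good tr x) : IsNilpotent x := by
  obtain ⟨N, hN⟩ := (h x hx).isNilpotent
  exact ⟨2 * N, by rw [pow_mul, sq, hN]⟩

lemma Good.map (φ : R ≃ₐ[ℚ] R) (hφ : ∀ x, tr (φ x) = tr x) {z : R} (hz : Good tr z) :
    Good tr (φ z) := by
  intro x hx
  have h1 : InRad tr (φ.symm x) := by
    intro γ
    rw [← hφ, map_mul, AlgEquiv.apply_symm_apply]
    exact hx _
  have h2 := (hz _ h1).map φ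
  rwa [map_mul, AlgEquiv.apply_symm_apply] at h2

lemma inRad_map (φ : R ≃ₐ[ℚ] R) (hφ : ∀ x, tr (φ x) = tr x) {x : R} (hx : InRad tr x) :
    InRad tr (φ x) := by
  intro γ
  have h := hx (φ.symm γ)
  rw [← hφ, map_mul, AlgEquiv.apply_symm_apply] at h
  exact h

end nil

namespace BGr

variable {R : Type*} [Ring R] [Algebra ℚ R] (G : BGr R)

/-- The linear map which is multiplication by `t ^ j` on the elements of degree `j`. -/
noncomputable def scaleL (t : ℚ) : R →ₗ[ℚ] R :=
  ∑ j ∈ Finset.Icc (-(G.d : ℤ)) G.d, (t ^ j) • G.pr j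

lemma scaleL_apply (t : ℚ) (x : R) :
    G.scaleL t x = ∑ j ∈ Finset.Icc (-(G.d : ℤ)) G.d, (t ^ j) • G.pr j x := by
  rw [scaleL, LinearMap.sum_apply]
  rfl

lemma pr_scaleL (t : ℚ) (i : ℤ) (x : R) : G.pr i (G.scaleL t x) = (t ^ i) • G.pr i x := by
  rw [scaleL_apply, map_sum]
  by_cases hi : i ∈ Finset.Icc (-(G.d : ℤ)) G.d
  · rw [Finset.sum_eq_single_of_mem i hi, map_smul, G.pr_self]
    intro j _ hj
    rw [map_smul, G.pr_ne i j x hj.symm, smul_zero]
  · rw [G.pr_out hi, smul_zero]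
    apply Finset.sum_eq_zero
    intro j hj
    rw [map_smul, G.pr_ne i j x (fun h => hi (h ▸ hj)), smul_zero]

lemma ext_pr {x y : R} (h : ∀ i, G.pr i x = G.pr i y) : x = y := by
  rw [← G.sum_pr x, ← G.sum_pr y]
  exact Finset.sum_congr rfl fun i _ => h i

lemma scaleL_mul {t : ℚ} (ht : t ≠ 0) (x y : R) :
    G.scaleL t (x * y) = G.scaleL t x * G.scaleL t y := by
  apply G.ext_pr
  intro n
  rw [pr_scaleL, G.pr_mul, G.pr_mul, Finset.smul_sum]
  apply Finset.sum_congr rfl
  intro i _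
  rw [pr_scaleL, pr_scaleL, smul_mul_smul_comm, ← zpow_add₀ ht, add_sub_cancel]

lemma scaleL_one {t : ℚ} : G.scaleL t (1 : R) = 1 := by
  apply G.ext_pr
  intro n
  rw [pr_scaleL]
  by_cases hn : n = 0
  · subst hn
    rw [zpow_zero, one_smul]
  · have h : G.pr n (1 : R) = 0 := by
      rw [← G.pr_one, G.pr_ne n 0 1 hn]
    rw [h, smul_zero]

lemma scaleL_scaleL {t s : ℚ} (h : t * s = 1) (x : R) :
    G.scaleL t (G.scaleL s x) = x := by
  apply G.ext_pr
  intro n
  rw [pr_scaleL, pr_scaleL, smul_smul, ← mul_zpow, h, one_zpow, one_smul]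

/-- The automorphism which is multiplication by `2 ^ j` on the elements of degree `j`. -/
noncomputable def scale : R ≃ₐ[ℚ] R :=
  AlgEquiv.ofLinearEquiv
    (LinearEquiv.ofLinearMap (G.scaleL 2) (G.scaleL (1 / 2))
      (LinearMap.ext fun x => G.scaleL_scaleL (by norm_num) x)
      (LinearMap.ext fun x => G.scaleL_scaleL (by norm_num) x))
    G.scaleL_one (G.scaleL_mul two_ne_zero)

lemma scale_apply (x : R) : G.scale x = G.scaleL 2 x := rfl

/-- Subspaces stable under the automorphism `scale` are graded. -/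
lemma pr_mem_of_scale {V : Submodule ℚ R} (hV : ∀ x ∈ V, G.scale x ∈ V) {x : R} (hx : x ∈ V)
    (j : ℤ) : G.pr j x ∈ V := by
  classical
  by_cases hj : j ∈ Finset.Icc (-(G.d : ℤ)) G.d
  swap
  · rw [G.pr_out hj]
    exact V.zero_mem
  set φ : R →ₗ[ℚ] R := G.scaleL 2 with hφ
  have hpow : ∀ n : ℕ, ∀ i, G.pr i ((φ ^ n) x) = (((2 : ℚ) ^ i) ^ n) • G.pr i x := by
    intro n
    induction n with
    | zero => intro i; rw [pow_zero, pow_zero, one_smul, Module.End.one_apply]
    | succ n ih =>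
      intro i
      rw [pow_succ' φ, Module.End.mul_apply, hφ, pr_scaleL, ← hφ, ih, smul_smul, ← pow_succ']
  have hpoly : ∀ P : Polynomial ℚ, ∀ i,
      G.pr i ((Polynomial.aeval φ P) x) = (P.eval ((2 : ℚ) ^ i)) • G.pr i x := by
    intro P i
    induction P using Polynomial.induction_on' with
    | add p q hp hq =>
      rw [map_add, LinearMap.add_apply, map_add, hp, hq, Polynomial.eval_add, add_smul]
    | monomial n a =>
      rw [Polynomial.aeval_monomial, Polynomial.eval_monomial, Module.End.mul_apply,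
        Module.algebraMap_end_apply, map_smul, hpow, smul_smul]
  have hmem : ∀ P : Polynomial ℚ, (Polynomial.aeval φ P) x ∈ V := by
    intro P
    induction P using Polynomial.induction_on' with
    | add p q hp hq =>
      rw [map_add, LinearMap.add_apply]
      exact V.add_mem hp hq
    | monomial n a =>
      rw [Polynomial.aeval_monomial, Module.End.mul_apply, Module.algebraMap_end_apply]
      apply V.smul_mem
      clear hpoly hpow
      induction n with
      | zero => rwa [pow_zero, Module.End.one_apply]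
      | succ n ih =>
        rw [pow_succ' φ, Module.End.mul_apply]
        exact hV _ ih
  have hinj : Set.InjOn (fun i : ℤ => (2 : ℚ) ^ i) (Finset.Icc (-(G.d : ℤ)) G.d) := by
    intro a _ b _ hab
    exact zpow_right_injective₀ (by norm_num) (by norm_num) hab
  have h1 := hmem (Lagrange.basis (Finset.Icc (-(G.d : ℤ)) G.d) (fun i : ℤ => (2 : ℚ) ^ i) j)
  have h2 : (Polynomial.aeval φ (Lagrange.basis (Finset.Icc (-(G.d : ℤ)) G.d)
      (fun i : ℤ => (2 : ℚ) ^ i) j)) x = G.pr j x := by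
    apply G.ext_pr
    intro i
    rw [hpoly]
    by_cases hi : i ∈ Finset.Icc (-(G.d : ℤ)) G.d
    · by_cases hij : i = j
      · subst hij
        rw [Lagrange.eval_basis_self hinj hi, one_smul, G.pr_self]
      · rw [Lagrange.eval_basis_of_ne (v := fun i : ℤ => (2 : ℚ) ^ i) (Ne.symm hij) hi, zero_smul,
          G.pr_ne i j x hij]
    · rw [G.pr_out hi, G.pr_out hi, smul_zero]
  rwa [h2] at h1

end BGr

end Pool.Agent.Y121.NK
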