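import Pool.Agent.Y121.NK.Lift
import Pool.Agent.H914R2.Core0

/-!
# Quotients of graded rings with a trace
-/

namespace Pool.Agent.Y121.NK

open Pool.Agent.TH829.Kim

section nil

variable {R : Type*} [Ring R] [Algebra ℚ R] {tr : R →ₗ[ℚ] ℚ}

/-- Products of elements of the radical of the trace form with idempotents `g` such that `gR` meets
the radical in elements which are nilpotent of bounded order lie in nil ideals. -/
theorem inNil_of_bounded (hsym : ∀ a b, tr (a * b) = tr (b * a)) {g : R} (hgg : g * g = g) {m : ℕ}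
    (hO : ∀ a, InRad tr a → g * a = a → a ^ (m + 1) = 0) {x : R} (hx : InRad tr x) :
    InNil (x * g) := by
  let B : Submodule ℚ R :=
    { carrier := {a | InRad tr a ∧ g * a = a}
      zero_mem' := ⟨fun γ => by rw [zero_mul, map_zero], mul_zero _⟩
      add_mem' := by
        rintro a b ⟨h1, h2⟩ ⟨h3, h4⟩
        exact ⟨h1.add h3, by rw [mul_add, h2, h4]⟩
      smul_mem' := by
        rintro q a ⟨h1, h2⟩
        refine ⟨fun γ => ?_, by rw [mul_smul_comm, h2]⟩
        rw [smul_mul_assoc, map_smul, h1, smul_zero] }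
  let N : Submodule ℚ R :=
    { carrier := {a | InRad tr a}
      zero_mem' := fun γ => by rw [zero_mul, map_zero]
      add_mem' := fun {a b} h1 h2 => InRad.add h1 h2
      smul_mem' := fun q a h1 γ => by rw [smul_mul_assoc, map_smul, h1, smul_zero] }
  have hB : ∀ x ∈ B, ∀ y ∈ B, x * y ∈ B := by
    rintro a ⟨h1, h2⟩ b ⟨h3, h4⟩
    exact ⟨h1.mul_right b, by rw [← mul_assoc, h2]⟩
  have hBn : B ^ (2 ^ (m + 1) - 1) = ⊥ := by
    rw [eq_bot_iff]
    apply nagata_higman m hB bot_le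
    · intro x _ y hy
      rw [Submodule.mem_bot] at hy ⊢
      rw [hy, mul_zero]
    · intro x hx y _
      rw [Submodule.mem_bot] at hx ⊢
      rw [hx, zero_mul]
    · rintro a ⟨h1, h2⟩
      rw [Submodule.mem_bot]
      exact hO a h1 h2
  let G : Submodule ℚ R := Submodule.span ℚ {g} * ⊤
  let S : Submodule ℚ R := N * G
  have hGN : G * N ≤ B := by
    rw [Submodule.mul_le]
    intro a ha b hb
    refine ⟨hb.mul_left hsym a, ?_⟩
    obtain ⟨c, rfl⟩ : ∃ c, a = g * c := by
      have h1 : Submodule.span ℚ {g} * ⊤ ≤ LinearMap.range (LinearMap.mulLeft ℚ g) := by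
        rw [Submodule.mul_le]
        intro u hu v _
        obtain ⟨q, rfl⟩ := Submodule.mem_span_singleton.1 hu
        exact ⟨q • v, by rw [LinearMap.mulLeft_apply, mul_smul_comm, smul_mul_assoc]⟩
      obtain ⟨c, hc⟩ := h1 ha
      exact ⟨c, hc.symm⟩
    rw [← mul_assoc, ← mul_assoc, hgg]
  have hSpow : ∀ k, S ^ (k + 1) ≤ N * B ^ k * G := by
    intro k
    induction k with
    | zero => rw [zero_add, pow_one, pow_zero, mul_one]
    | succ k ih =>
      calc S ^ (k + 1 + 1) = S ^ (k + 1) * S := pow_succ _ _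
        _ ≤ N * B ^ k * G * (N * G) := by gcongr
        _ = N * B ^ k * (G * N) * G := by simp only [mul_assoc]
        _ ≤ N * B ^ k * B * G := by gcongr
        _ = N * B ^ (k + 1) * G := by rw [pow_succ]; simp only [mul_assoc]
  have hSnil : S ^ (2 ^ (m + 1) - 1 + 1) = ⊥ := by
    rw [eq_bot_iff]
    refine (hSpow _).trans ?_
    rw [hBn, Submodule.mul_bot, Submodule.bot_mul]
  refine ⟨S, ?_, ?_, ?_, ?_⟩
  · intro a s hs
    have h1 : (⊤ : Submodule ℚ R) * S ≤ S := by
      rw [← mul_assoc]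
      have h2 : (⊤ : Submodule ℚ R) * N ≤ N := Submodule.mul_le.2 fun u _ v hv =>
        InRad.mul_left hsym hv u
      exact mul_le_mul' h2 le_rfl
    exact h1 (Submodule.mul_mem_mul Submodule.mem_top hs)
  · intro a s hs
    have h1 : S * (⊤ : Submodule ℚ R) ≤ S := by
      rw [show S * (⊤ : Submodule ℚ R) = N * (Submodule.span ℚ {g} * (⊤ * ⊤)) by
        simp only [S, G, mul_assoc]]
      exact mul_le_mul' le_rfl (mul_le_mul' le_rfl le_top)
    exact h1 (Submodule.mul_mem_mul hs Submodule.mem_top)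
  · intro s hs
    refine ⟨2 ^ (m + 1) - 1 + 1, ?_⟩
    have h2 := Submodule.pow_mem_pow S hs (2 ^ (m + 1) - 1 + 1)
    rw [hSnil, Submodule.mem_bot] at h2
    exact h2
  · have : g ∈ G := by
      have := Submodule.mul_mem_mul (Submodule.mem_span_singleton_self (R := ℚ) g)
        (Submodule.mem_top (R := ℚ) (x := (1 : R)))
      rwa [mul_one] at this
    exact Submodule.mul_mem_mul (show x ∈ N from hx) this

/-- It is enough to bound the order of nilpotence in the corner `gRg`. -/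
theorem good_of_bounded (hsym : ∀ a b, tr (a * b) = tr (b * a)) {g : R} (hgg : g * g = g) {m : ℕ}
    (hO : ∀ b, InRad tr b → g * b = b → b * g = b → b ^ m = 0) : Good tr g := by
  intro x hx
  apply inNil_of_bounded hsym hgg (m := m) _ hx
  intro a ha hga
  have hb : (a * g) ^ m = 0 := by
    apply hO _ (ha.mul_right g)
    · rw [← mul_assoc, hga]
    · rw [mul_assoc, hgg]
  have h1 : ∀ n : ℕ, a ^ (n + 1) = (a * g) ^ n * a := by
    intro n
    induction n with
    | zero => rw [zero_add, pow_one, pow_zero, one_mul]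
    | succ n ih =>
      rw [pow_succ a, ih, pow_succ (a * g)]
      simp only [mul_assoc]
      rw [hga]
  rw [h1, hb, zero_mul]

end nil

section bounded

variable {K : Type*} [Field K] [CharZero K] {V : Type*} [AddCommGroup V] [Module K V]
  [Module.Finite K V]

/-- An endomorphism all of whose powers have trace zero is nilpotent of order the dimension. -/
lemma pow_finrank_eq_zero (y : Module.End K V)
    (h : ∀ r : ℕ, LinearMap.trace K V (y ^ (r + 1)) = 0) : y ^ (Module.finrank K V) = 0 := by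
  have h1 := (Pool.Agent.H914.isNilpotent_of_trace_pow y h)
  have h2 := (LinearMap.isNilpotent_iff_charpoly y).1 h1
  have h3 := LinearMap.aeval_self_charpoly y
  rw [h2, map_pow, Polynomial.aeval_X] at h3
  exact h3

end bounded

namespace BGr

variable {R : Type*} [Ring R] [Algebra ℚ R] (G : BGr R) {tr : R →ₗ[ℚ] ℚ}

section quot

variable (I : Ideal R) [I.IsTwoSided] (hI : ∀ x ∈ I, ∀ j, G.pr j x ∈ I)

/-- The components of an element of the quotient. -/
noncomputable def qpr (j : ℤ) : (R ⧸ I) →ₗ[ℚ] (R ⧸ I) :=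
  AddMonoidHom.toRatLinearMap
    (QuotientAddGroup.map I.toAddSubgroup I.toAddSubgroup (G.pr j).toAddMonoidHom
      (fun x hx => hI x hx j) : (R ⧸ I) →+ (R ⧸ I))

lemma qpr_mk (j : ℤ) (x : R) :
    G.qpr I hI j (Ideal.Quotient.mk I x) = Ideal.Quotient.mk I (G.pr j x) := rfl

/-- The grading of the quotient by a homogeneous ideal. -/
noncomputable def quot : BGr (R ⧸ I) where
  d := G.d
  pr := G.qpr I hI
  pr_self i x := by
    obtain ⟨x, rfl⟩ := Ideal.Quotient.mk_surjective x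
    rw [qpr_mk, qpr_mk, G.pr_self]
  pr_ne i j x hij := by
    obtain ⟨x, rfl⟩ := Ideal.Quotient.mk_surjective x
    rw [qpr_mk, qpr_mk, G.pr_ne i j x hij, map_zero]
  sum_pr x := by
    obtain ⟨x, rfl⟩ := Ideal.Quotient.mk_surjective x
    conv_rhs => rw [← G.sum_pr x]
    rw [map_sum]
    exact Finset.sum_congr rfl fun j _ => G.qpr_mk I hI j x
  pr_one := by
    rw [← map_one (Ideal.Quotient.mk I), qpr_mk, G.pr_one]
  pr_mul_left i j x y hx := by
    obtain ⟨x, rfl⟩ := Ideal.Quotient.mk_surjective x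
    obtain ⟨y, rfl⟩ := Ideal.Quotient.mk_surjective y
    rw [qpr_mk] at hx
    rw [← hx, ← map_mul, qpr_mk, qpr_mk, G.pr_mul_left i j _ y (G.pr_self i x), map_mul]
  pr_mul_right i j x y hy := by
    obtain ⟨x, rfl⟩ := Ideal.Quotient.mk_surjective x
    obtain ⟨y, rfl⟩ := Ideal.Quotient.mk_surjective y
    rw [qpr_mk] at hy
    rw [← hy, ← map_mul, qpr_mk, qpr_mk, G.pr_mul_right i j x _ (G.pr_self j y), map_mul]

lemma quot_pr (j : ℤ) (x : R) : (G.quot I hI).pr j (Ideal.Quotient.mk I x) =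
    Ideal.Quotient.mk I (G.pr j x) := rfl

variable (tr) (htrI : ∀ x ∈ I, tr x = 0)

/-- The trace on the quotient. -/
noncomputable def trQ : (R ⧸ I) →ₗ[ℚ] ℚ :=
  AddMonoidHom.toRatLinearMap
    (QuotientAddGroup.lift I.toAddSubgroup tr.toAddMonoidHom (by
      intro a ha
      rw [AddMonoidHom.mem_ker]
      exact htrI a ha) : (R ⧸ I) →+ ℚ)

end quot

end BGr

section quot

variable {R : Type*} [Ring R] [Algebra ℚ R] (G : BGr R) (tr : R →ₗ[ℚ] ℚ)
  (I : Ideal R) [I.IsTwoSided] (htrI : ∀ x ∈ I, tr x = 0)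

lemma trQ_mk (x : R) : BGr.trQ tr I htrI (Ideal.Quotient.mk I x) = tr x := rfl

lemma trQ_inRad {x : R} : InRad (BGr.trQ tr I htrI) (Ideal.Quotient.mk I x) ↔ InRad tr x := by
  constructor
  · intro h γ
    have := h (Ideal.Quotient.mk I γ)
    rwa [← map_mul, trQ_mk] at this
  · intro h γ
    obtain ⟨γ, rfl⟩ := Ideal.Quotient.mk_surjective γ
    rw [← map_mul, trQ_mk]
    exact h γ

/-- The existence of a homogeneous model of an idempotent of the quotient by a homogeneous ideal. -/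
theorem exists_homogeneous_quot (hsym : ∀ a b, tr (a * b) = tr (b * a))
    (htr : ∀ j x, j ≠ 0 → tr (G.pr j x) = 0) (hI : ∀ x ∈ I, ∀ j, G.pr j x ∈ I)
    (hfin : ∃ (n : ℕ) (y : Fin n → R), ∀ x, (∀ i, tr (x * y i) = 0) → InRad tr x) {e : R}
    (he : e * e - e ∈ I) (hge : Good (BGr.trQ tr I htrI) (Ideal.Quotient.mk I e)) :
    ∃ p u v : R, G.pr 0 p = p ∧ p * p - p ∈ I ∧ u * v - e ∈ I ∧ v * u - p ∈ I := by
  have hsym' : ∀ a b, BGr.trQ tr I htrI (a * b) = BGr.trQ tr I htrI (b * a) := by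
    intro a b
    obtain ⟨a, rfl⟩ := Ideal.Quotient.mk_surjective a
    obtain ⟨b, rfl⟩ := Ideal.Quotient.mk_surjective b
    rw [← map_mul, ← map_mul, trQ_mk, trQ_mk, hsym]
  have htr' : ∀ j x, j ≠ 0 → BGr.trQ tr I htrI ((G.quot I hI).pr j x) = 0 := by
    intro j x hj
    obtain ⟨x, rfl⟩ := Ideal.Quotient.mk_surjective x
    rw [BGr.quot_pr, trQ_mk]
    exact htr j x hj
  have hfin' : ∃ (n : ℕ) (f : (R ⧸ I) →ₗ[ℚ] (Fin n → ℚ)), ∀ x, f x = 0 →
      InRad (BGr.trQ tr I htrI) x := by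
    obtain ⟨n, y, hy⟩ := hfin
    refine ⟨n, LinearMap.pi fun i => (BGr.trQ tr I htrI) ∘ₗ
      LinearMap.mulRight ℚ (Ideal.Quotient.mk I (y i)), ?_⟩
    intro x hx
    obtain ⟨x, rfl⟩ := Ideal.Quotient.mk_surjective x
    rw [trQ_inRad]
    apply hy
    intro i
    exact congrFun hx i
  have he' : Ideal.Quotient.mk I e * Ideal.Quotient.mk I e = Ideal.Quotient.mk I e := by
    rw [← map_mul]
    exact (Ideal.Quotient.mk_eq_mk_iff_sub_mem _ _).2 he
  obtain ⟨p, u, v, h1, h2, h3, h4, -⟩ :=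
    (G.quot I hI).exists_homogeneous_iso htr' hsym' hfin' he' hge
  obtain ⟨p, rfl⟩ := Ideal.Quotient.mk_surjective p
  obtain ⟨u, rfl⟩ := Ideal.Quotient.mk_surjective u
  obtain ⟨v, rfl⟩ := Ideal.Quotient.mk_surjective v
  rw [BGr.quot_pr] at h1
  refine ⟨G.pr 0 p, u, v, G.pr_self 0 p, ?_, ?_, ?_⟩
  · rw [← Ideal.Quotient.mk_eq_mk_iff_sub_mem, map_mul, h1, h2]
  · rw [← Ideal.Quotient.mk_eq_mk_iff_sub_mem, map_mul, h3]
  · rw [← Ideal.Quotient.mk_eq_mk_iff_sub_mem, map_mul, h4, h1]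

end quot

end Pool.Agent.Y121.NK
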