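import Pool.Agent.TH829.Kim.Defs

/-!
# The standard conjecture D for endomorphisms of motives: definitions
-/

open CategoryTheory AlgebraicGeometry

universe u v w

namespace Pool.Agent.Y121.NK

open Pool.Agent.H914 Pool.Agent.H914.VarClass Pool.Agent.H914.VarClass.Obj Pool.Agent.W492.BB
  Pool.Agent.W550.Corr Pool.Agent.TH133

variable {k : Type u} [Field k] {𝒱 : VarClass k} {C : TheoryData.{u, v, 0} 𝒱 ℚ} {K : Type w}
  [Field K]

/-- The class `z` (of any degrees) is numerically trivial: the degree of `z b` is zero for all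
classes `b`. -/
def NumZero (C : TheoryData.{u, v, 0} 𝒱 ℚ) {Z : 𝒱.Obj} (z : C.A Z) : Prop :=
  ∀ b : C.A Z, HasDegree C (C.mul z b) 0

/-- The class `z` is homologically trivial. -/
def HomZero (H : WeilTheoryData.{u, v, w} C K) {Z : 𝒱.Obj} (z : C.A Z) : Prop := H.cl z = 0

/-- The noncommutative standard conjecture D for `𝒜^op ⊗ 𝒜`, where `𝒜 = (X, e)` is a direct summand
of the noncommutative motive of `X`: the numerically trivial elements of
`K_0(𝒜^op ⊗ 𝒜)_ℚ = e ∘ CH^*(X × X)_ℚ ∘ e` are homologically trivial. -/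
def StdDNC (H : WeilTheoryData.{u, v, w} C K) {X : 𝒱.Obj} (e : C.A (X.prod X)) : Prop :=
  ∀ x : C.A (X.prod X), NumZero C (C.comp (C.comp e x) e) → HomZero H (C.comp (C.comp e x) e)

/-- Grothendieck's standard conjecture D for the Chow motive `M^∨ ⊗ M`, where `M = (X, p)`, in all
codimensions: the numerically trivial elements of `p ∘ CH^i(X × X)_ℚ ∘ p` are homologically
trivial, for all `i`. -/
def StdDChow (H : WeilTheoryData.{u, v, w} C K) {X : 𝒱.Obj} (p : C.A (X.prod X)) : Prop :=
  ∀ (i : ℤ) (x : C.A (X.prod X)), C.Deg i x → NumZero C (C.comp (C.comp p x) p) →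
    HomZero H (C.comp (C.comp p x) p)

end Pool.Agent.Y121.NK
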