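import Pool.Agent.Y121.NK.Sign
import Pool.Agent.Y121.NK.StdDDefs

/-!
# The standard conjecture D for endomorphisms of noncommutative motives of geometric origin
-/

open CategoryTheory AlgebraicGeometry

universe u v w

namespace Pool.Agent.Y121.NK

open Pool.Agent.H914 Pool.Agent.H914.VarClass Pool.Agent.H914.VarClass.Obj Pool.Agent.W492.BB
  Pool.Agent.W550.Corr Pool.Agent.TH133 Pool.Agent.TH829.Prime Pool.Agent.TH829.Kim

set_option linter.unusedSectionVars false

variable {k : Type u} [Field k] {𝒱 : VarClass k}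

section chow

variable {C : TheoryData.{u, v, 0} 𝒱 ℚ} [hC : IsChowProj C] {X Y Z W V : 𝒱.Obj}

include hC

lemma numZero_iff (hne : ∀ X : 𝒱.Obj, (1 : C.A X) ≠ 0) {z : Cor C X} :
    NumZero C (cA C X z) ↔ InRad (trA hne X) z := by
  constructor
  · intro h γ
    have h1 := trA_mul (hne := hne) γ z
    rw [trA_comm] at h1
    exact hasDegree_uniq (hne X) h1 (h (tp C (cA C X γ)))
  · intro h b
    have h1 := trA_mul (hne := hne) (show Cor C X from tp C b) z
    rw [trA_comm, h] at h1
    have e : tp C (cA C X (show Cor C X from tp C b)) = b := tp_tp C b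
    rw [e] at h1
    exact h1

end chow

section weil

variable {C : TheoryData.{u, v, 0} 𝒱 ℚ} [hC : IsChowProj C] {K : Type w} [Field K]
  (H : WeilTheoryData.{u, v, w} C K) [hH : IsWeilProj H] {X Y Z W : 𝒱.Obj}

include hC hH

lemma homZero_iff {z : Cor C X} : HomZero H (cA C X z) ↔ z ∈ homI H X := (mem_homI H).symm

lemma stdDNC_iff (hne : ∀ X : 𝒱.Obj, (1 : C.A X) ≠ 0) {e : Cor C X} :
    StdDNC H (cA C X e) ↔ ∀ x : Cor C X, InRad (trA hne X) (e * x * e) →
      e * x * e ∈ homI H X := by
  have key : ∀ x : Cor C X, C.comp (C.comp (cA C X e) (cA C X x)) (cA C X e) =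
      cA C X (e * x * e) := fun x => by
    rw [mul_assoc]
    rfl
  constructor
  · intro h x hx
    rw [← homZero_iff, ← key]
    apply h
    rw [key, numZero_iff hne]
    exact hx
  · intro h x hx
    obtain ⟨x', hx'⟩ : ∃ x' : Cor C X, cA C X x' = x := ⟨x, rfl⟩
    subst hx'
    rw [key] at hx ⊢
    exact (homZero_iff H).2 (h _ ((numZero_iff hne).1 hx))

lemma stdDChow_iff (hne : ∀ X : 𝒱.Obj, (1 : C.A X) ≠ 0) {e : Cor C X}
    (he : (grading C X).pr 0 e = e) :
    StdDChow H (cA C X e) ↔ ∀ x : Cor C X, InRad (trA hne X) (e * x * e) →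
      e * x * e ∈ homI H X := by
  rw [← stdDNC_iff H hne]
  constructor
  · intro h
    rw [stdDNC_iff H hne]
    intro x hx
    have h1 : ∀ j, e * (grading C X).pr j x * e = (grading C X).pr j (e * x * e) := by
      intro j
      have h2 := (grading C X).pr_mul_left 0 j e x he
      have h3 := (grading C X).pr_mul_right j 0 (e * x) e he
      rw [zero_add] at h2
      rw [add_zero] at h3
      rw [h3, h2]
    have h4 : ∀ j, (grading C X).pr j (e * x * e) ∈ homI H X := by
      intro j
      rw [← h1, ← homZero_iff]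
      have h5 := h (X.dim + j) (cA C X ((grading C X).pr j x)) (by
        have h6 := (grading C X).pr_self j x
        rw [grading_pr, prC_iff] at h6
        exact h6)
      have key : C.comp (C.comp (cA C X e) (cA C X ((grading C X).pr j x))) (cA C X e) =
          cA C X (e * (grading C X).pr j x * e) := by
        rw [mul_assoc]
        rfl
      rw [key] at h5
      apply h5
      rw [numZero_iff hne, h1]
      exact (grading C X).inRad_pr (fun j x hj => trA_pr j x hj) hx j
    rw [← (grading C X).sum_pr (e * x * e)]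
    exact Ideal.sum_mem _ fun j _ => h4 j
  · intro h i x _ hx
    exact h x hx

/-- If `D` holds for the endomorphisms of the motive then the radical is nil. -/
theorem good_of_stdD (hne : ∀ X : 𝒱.Obj, (1 : C.A X) ≠ 0) {e : Cor C X}
    (he : e * e - e ∈ homI H X)
    (h : ∀ x : Cor C X, InRad (trA hne X) (e * x * e) → e * x * e ∈ homI H X) :
    Good (trH H hne X) (Ideal.Quotient.mk (homI H X) e) := by
  have hsym' : ∀ a b, trH H hne X (a * b) = trH H hne X (b * a) := by
    intro a b
    obtain ⟨a, rfl⟩ := Ideal.Quotient.mk_surjective a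
    obtain ⟨b, rfl⟩ := Ideal.Quotient.mk_surjective b
    rw [← map_mul, ← map_mul]
    change trA hne X (a * b) = trA hne X (b * a)
    exact trA_comm a b
  refine good_of_bounded hsym' (m := 1) ?_ ?_
  · rw [← map_mul]
    exact (Ideal.Quotient.mk_eq_mk_iff_sub_mem _ _).2 he
  intro b hb hgb hbg
  obtain ⟨b, rfl⟩ := Ideal.Quotient.mk_surjective b
  rw [trQ_inRad] at hb
  rw [pow_one, ← hbg, ← hgb, ← map_mul, ← map_mul, Ideal.Quotient.eq_zero_iff_mem]
  apply h
  exact (hb.mul_left (fun a b => trA_comm a b) e).mul_right e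

/-- The main theorem on the standard conjecture D, in terms of the ring of self-correspondences. -/
theorem stdD_main' (X : 𝒱.Obj) [FiniteDimensional K (H.A (X.prod X))] (e : Cor C X)
    (he : e * e - e ∈ homI H X) :
    StdDNC H (cA C X e) ↔ ∃ p u v : Cor C X, (grading C X).pr 0 p = p ∧ p * p - p ∈ homI H X ∧
      u * v - e ∈ homI H X ∧ v * u - p ∈ homI H X ∧ ((grading C X).pr 0 e = e → p = e) ∧
      StdDChow H (cA C X p) := by
  have hne : ∀ X : 𝒱.Obj, (1 : C.A X) ≠ 0 := one_ne H
  -- transport along isomorphisms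
  have transport : ∀ e p u v : Cor C X, e * e - e ∈ homI H X → p * p - p ∈ homI H X →
      u * v - e ∈ homI H X → v * u - p ∈ homI H X →
      (∀ x : Cor C X, InRad (trA hne X) (e * x * e) → e * x * e ∈ homI H X) →
      ∀ x : Cor C X, InRad (trA hne X) (p * x * p) → p * x * p ∈ homI H X := by
    intro e p u v he hp huv hvu h x hx
    have hm : ∀ a b : Cor C X, a - b ∈ homI H X ↔
        Ideal.Quotient.mk (homI H X) a = Ideal.Quotient.mk (homI H X) b :=
      fun a b => (Ideal.Quotient.mk_eq_mk_iff_sub_mem a b).symm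
    have hradI : ∀ a b : Cor C X, a - b ∈ homI H X → InRad (trA hne X) a →
        InRad (trA hne X) b := by
      intro a b hab ha γ
      have h1 : trA hne X ((a - b) * γ) = 0 :=
        trA_homI H hne (Ideal.mul_mem_right γ _ hab)
      rw [sub_mul, map_sub, ha γ, zero_sub, neg_eq_zero] at h1
      exact h1
    rw [hm, map_mul] at he hp huv hvu
    -- `u p x p v` lies in the corner of `e`
    have h1 : e * (u * (p * x * p) * v) * e - u * (p * x * p) * v ∈ homI H X := by
      rw [hm]
      simp only [map_mul]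
      rw [← huv, ← hvu]
      have key : ∀ U V P : Cor C X ⧸ homI H X, V * U * (V * U) = V * U →
          U * V * (U * (V * U * P * (V * U)) * V) * (U * V) = U * (V * U * P * (V * U)) * V := by
        intro U V P h2
        calc U * V * (U * (V * U * P * (V * U)) * V) * (U * V) =
            U * (V * U * (V * U)) * P * (V * U * (V * U) ) * V := by simp only [mul_assoc]
          _ = U * (V * U) * P * (V * U) * V := by rw [h2]
          _ = _ := by simp only [mul_assoc]
      apply key
      rw [hvu, hp]
    have h2 : InRad (trA hne X) (u * (p * x * p) * v) :=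
      (hx.mul_left (fun a b => trA_comm a b) u).mul_right v
    have h3 : InRad (trA hne X) (e * (u * (p * x * p) * v) * e) := by
      apply hradI _ _ _ h2
      rw [hm] at h1 ⊢
      exact h1.symm
    have h4 := h _ h3
    have h5 : u * (p * x * p) * v ∈ homI H X := by
      have h6 := Ideal.sub_mem _ h4 h1
      rwa [sub_sub_cancel] at h6
    -- go back
    have h6 : v * (u * (p * x * p) * v) * u ∈ homI H X :=
      Ideal.mul_mem_right _ _ (Ideal.mul_mem_left _ _ h5)
    have h7 : v * (u * (p * x * p) * v) * u - p * x * p ∈ homI H X := by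
      rw [hm]
      simp only [map_mul]
      rw [← hvu]
      have key : ∀ U V P : Cor C X ⧸ homI H X, V * U * (V * U) = V * U →
          V * (U * (V * U * P * (V * U)) * V) * U = V * U * P * (V * U) := by
        intro U V P h2
        calc V * (U * (V * U * P * (V * U)) * V) * U =
            V * U * (V * U) * P * (V * U * (V * U)) := by simp only [mul_assoc]
          _ = _ := by rw [h2]
      apply key
      rw [hvu, hp]
    have h8 := Ideal.sub_mem _ h6 h7
    rwa [sub_sub_cancel] at h8
  constructor
  · intro h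
    by_cases hd : (grading C X).pr 0 e = e
    · refine ⟨e, e, e, hd, he, he, he, fun _ => rfl, ?_⟩
      rw [stdDChow_iff H hne hd]
      exact (stdDNC_iff H hne).1 h
    · have hg := good_of_stdD H hne he ((stdDNC_iff H hne).1 h)
      obtain ⟨p, u, v, h1, h2, h3, h4⟩ := exists_model H hne X he hg
      refine ⟨p, u, v, h1, h2, h3, h4, fun h => absurd h hd, ?_⟩
      rw [stdDChow_iff H hne h1]
      exact transport e p u v he h2 h3 h4 ((stdDNC_iff H hne).1 h)
  · rintro ⟨p, u, v, h1, h2, h3, h4, -, h5⟩
    rw [stdDChow_iff H hne h1] at h5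
    rw [stdDNC_iff H hne]
    exact transport p e v u h2 he h4 h3 h5

/-- The main theorem on the standard conjecture D. -/
theorem stdD_main (X : 𝒱.Obj) [FiniteDimensional K (H.A (X.prod X))] (e : C.A (X.prod X))
    (he : HomEq H (C.comp e e) e) :
    StdDNC H e ↔ ∃ p u v : C.A (X.prod X), C.Deg X.dim p ∧ HomEq H (C.comp p p) p ∧
      HomEq H (C.comp u v) e ∧ HomEq H (C.comp v u) p ∧ (C.Deg X.dim e → p = e) ∧
      StdDChow H p := by
  have hmul : ∀ a b c : Cor C X, HomEq H (C.comp (cA C X b) (cA C X a)) (cA C X c) ↔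
      a * b - c ∈ homI H X := fun a b c => by
    rw [← cA_mul]
    exact homEq_iff H
  have he' := (hmul e e e).1 he
  have key := stdD_main' H X (show Cor C X from e) he'
  constructor
  · intro h
    obtain ⟨p, u, v, h1, h2, h3, h4, h5, h6⟩ := key.1 h
    exact ⟨p, v, u, hdeg_iff.1 h1, (hmul p p p).2 h2, (hmul u v e).2 h3, (hmul v u p).2 h4,
      fun h => h5 (hdeg_iff.2 h), h6⟩
  · rintro ⟨p, v, u, h1, h2, h3, h4, h5, h6⟩
    exact key.2 ⟨p, u, v, hdeg_iff.2 h1, (hmul p p p).1 h2, (hmul u v e).1 h3, (hmul v u p).1 h4,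
      fun h => h5 (hdeg_iff.1 h), h6⟩

end weil

end Pool.Agent.Y121.NK
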